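import Pool.Agent.Y163.MW.Defs

/-!
# Frobenius-monodromy modules, purity, degenerations
-/

set_option autoImplicit false

open Module

universe u v w

namespace Pool.Agent.K7.H9.ND

open Pool.Agent.Y163.MW Pool.Agent.Y143

/-- A vector space with an operator `F` (the action of a lift of the geometric Frobenius) and a
monodromy operator `N`. -/
structure FN (Ω : Type w) [Field Ω] where
  /-- the vector space -/
  V : Type v
  [addCommGroup : AddCommGroup V]
  [module : Module Ω V]
  /-- the geometric Frobenius -/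
  F : Module.End Ω V
  /-- the monodromy operator -/
  N : Module.End Ω V

attribute [instance] FN.addCommGroup FN.module

variable {Ω : Type w} [Field Ω] [CharZero Ω]

/-- The space is finite dimensional, `N F = q F N`, and the eigenvalues of `F` are `q`-Weil numbers of
integral weights. -/
structure FN.IsRep (R : FN.{v, w} Ω) (q : ℕ) : Prop where
  finite : Module.Finite Ω R.V
  N_F : Twisted (q : Ω) R.F R.N
  weil : ∀ (α : Ω) (x : R.V), x ≠ 0 → R.F x = α • x → ∃ w : ℤ, IsWeilNumber q w α

/-- `R` is mw pure of weight `w`: for all `s` the eigenvalues of `F` on the graded piece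
`M_s / M_(s - 1)` of the monodromy filtration `M` of `N` are `q`-Weil numbers of weight `w + s`. -/
def FN.Pure (R : FN.{v, w} Ω) (q : ℕ) (w : ℤ) : Prop :=
  ∃ M : ℤ → Submodule Ω R.V, IsMonodromyFiltrationOn ⊤ R.N M ∧
    ∀ (s : ℤ) (α : Ω) (x : R.V), x ∈ M s → x ∉ M (s - 1) → R.F x - α • x ∈ M (s - 1) →
      IsWeilNumber q (w + s) α

/-- The restriction of the linear map `π` to the subspace `S` is a map from `S` onto `D` with kernel
`S'`, and commutes with the operators (the values of `π` outside of `S` do not matter). -/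
structure FN.IsQuotientMap (R : FN.{v, w} Ω) (S S' : Submodule Ω R.V) (D : FN.{v, w} Ω)
    (π : R.V →ₗ[Ω] D.V) : Prop where
  surjective : ∀ z, ∃ x ∈ S, π x = z
  kernel : ∀ x ∈ S, π x = 0 ↔ x ∈ S'
  frob : ∀ x ∈ S, π (R.F x) = D.F (π x)
  monodromy : ∀ x ∈ S, π (R.N x) = D.N (π x)

/-- `D`, with its operators, is the subquotient `S / S'` of `R`. -/
def FN.IsSubquotient (R : FN.{v, w} Ω) (S S' : Submodule Ω R.V) (D : FN.{v, w} Ω) : Prop :=
  ∃ π : R.V →ₗ[Ω] D.V, R.IsQuotientMap S S' D π

/-- The linear map `f` commutes with the operators. -/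
def FN.IsHom (P Q : FN.{v, w} Ω) (f : P.V →ₗ[Ω] Q.V) : Prop :=
  (∀ x, f (P.F x) = Q.F (f x)) ∧ ∀ x, f (P.N x) = Q.N (f x)

/-- `D` is the homology at `Q` of a complex `P → Q → R` of modules that are mw pure of weight `w`. -/
def FN.IsHomologyOfPure (D : FN.{v, w} Ω) (q : ℕ) (w : ℤ) : Prop :=
  ∃ (P Q R : FN.{v, w} Ω) (f : P.V →ₗ[Ω] Q.V) (g : Q.V →ₗ[Ω] R.V),
    (P.IsRep q ∧ P.Pure q w) ∧ (Q.IsRep q ∧ Q.Pure q w) ∧ (R.IsRep q ∧ R.Pure q w) ∧
    P.IsHom Q f ∧ Q.IsHom R g ∧ (∀ x, g (f x) = 0) ∧
    Q.IsSubquotient (LinearMap.ker g) (LinearMap.range f) D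

/-- The limit cohomology (nearby cohomology) in a fixed degree of a family of varieties over a
punctured disc over the local field `K`: the operator `F` (a lift of the geometric Frobenius), the
monodromy operator `N₁` of the inertia group of `K` and the monodromy operator `N₂` of the family
around the puncture. -/
structure Limit (Ω : Type w) [Field Ω] where
  /-- the vector space -/
  V : Type v
  [addCommGroup : AddCommGroup V]
  [module : Module Ω V]
  /-- the geometric Frobenius -/
  F : Module.End Ω V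
  /-- the arithmetic monodromy operator -/
  N₁ : Module.End Ω V
  /-- the geometric monodromy operator -/
  N₂ : Module.End Ω V

attribute [instance] Limit.addCommGroup Limit.module

/-- The operators satisfy `N₁ N₂ = N₂ N₁`, `N₁ F = q F N₁`, `N₂ F = q F N₂`, and the eigenvalues of `F`
are `q`-Weil numbers of integral weights. -/
structure Limit.IsLimit (L : Limit.{v, w} Ω) (q : ℕ) : Prop where
  finite : Module.Finite Ω L.V
  comm : ∀ x, L.N₁ (L.N₂ x) = L.N₂ (L.N₁ x)
  N₁_F : Twisted (q : Ω) L.F L.N₁
  N₂_F : Twisted (q : Ω) L.F L.N₂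
  weil : ∀ (α : Ω) (x : L.V), x ≠ 0 → L.F x = α • x → ∃ w : ℤ, IsWeilNumber q w α

/-- The cohomology of a fibre over a point `t` near the puncture with `v(t) = c`: the monodromy
operator is `N₁ + c N₂`. -/
def Limit.fibre (L : Limit.{v, w} Ω) (c : Ω) : FN.{v, w} Ω := ⟨L.V, L.F, L.N₁ + c • L.N₂⟩

/-- The limit cohomology with the arithmetic monodromy operator. -/
def Limit.arith (L : Limit.{v, w} Ω) : FN.{v, w} Ω := ⟨L.V, L.F, L.N₁⟩

/-- The weight spectral sequence of the degenerate fibre (a union of smooth proper strata): for all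
`a` the graded piece `gr_a` of the monodromy filtration of `N₂` is the homology of a complex of
modules that are mw pure of weight `m + a` (sums of Tate twists of cohomology groups of the
strata). -/
def Limit.HasPureStrata (L : Limit.{v, w} Ω) (q : ℕ) (m : ℤ) : Prop :=
  ∃ M : ℤ → Submodule Ω L.V, IsMonodromyFiltrationOn ⊤ L.N₂ M ∧
    ∀ a : ℤ, ∃ D : FN.{v, w} Ω, D.IsHomologyOfPure q (m + a) ∧
      L.arith.IsSubquotient (M a) (M (a - 1)) D

/-- The sum of the positive excesses `w - m` of the weights `w` of the eigenvalues of `F`. -/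
noncomputable def Limit.moment (L : Limit.{v, w} Ω) (q : ℕ) (m : ℤ) : ℕ :=
  ∑ᶠ k : ℕ, k * finrank Ω (⨆ (α : Ω) (_ : IsWeilNumber q (m + k) α),
    L.F.maxGenEigenspace α : Submodule Ω L.V)

end Pool.Agent.K7.H9.ND
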