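import Pool.Agent.Y163.MW.Asm
import Pool.Agent.Y153.MW.A
import Pool.Agent.Y614.MW.F
import Pool.Agent.Y141.MW.L
import Pool.Agent.Y664.MW.B2
import Pool.Agent.Y68.MW.D

/-!
# Sums of commuting nilpotent operators
-/

set_option autoImplicit false

open Module

namespace Pool.Agent.K7.H9.ND

open Pool.Agent.Y163.MW

universe u v

variable {K : Type u} [Field K] {V : Type v} [AddCommGroup V] [Module K V]
  {gr : ℤ → Submodule K V} {N : Module.End K V}

/-- The weight of a vector of the basis of strings in the representation of `sl(2)`. -/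
def cw (S : Strings gr N) (p : Σ s : S.ι, Fin (S.len s + 1)) : ℤ := (S.len p.1 : ℤ) - 2 * (p.2 : ℕ)

/-- The degree of a vector of the basis of strings. -/
def dw (S : Strings gr N) (p : Σ s : S.ι, Fin (S.len s + 1)) : ℤ := S.top p.1 - 2 * (p.2 : ℕ)

lemma b_pow (S : Strings gr N) (s : S.ι) (i : ℕ) (hi : i < S.len s + 1) :
    S.b ⟨s, ⟨i, hi⟩⟩ = (N ^ i) (S.b ⟨s, 0⟩) := by
  induction i with
  | zero => rfl
  | succ i ih =>
    have h1 := S.succ s ⟨i, by omega⟩
    rw [pow_succ', Module.End.mul_apply, ← ih (by omega)]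
    exact h1.symm

lemma b_kill (S : Strings gr N) (s : S.ι) (k : ℕ) (hk : S.len s < k) :
    (N ^ k) (S.b ⟨s, 0⟩) = 0 := by
  obtain ⟨j, rfl⟩ := Nat.exists_eq_add_of_lt hk
  have h1 := S.last s
  have h2 : S.b ⟨s, Fin.last (S.len s)⟩ = (N ^ S.len s) (S.b ⟨s, 0⟩) := b_pow S s (S.len s) (by omega)
  rw [h2, ← Module.End.mul_apply, ← pow_succ'] at h1
  rw [show S.len s + j + 1 = j + (S.len s + 1) by ring, pow_add, Module.End.mul_apply, h1, map_zero]

/-- An operator that commutes with `N` and `h` commutes with the raising operator. -/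
lemma comm_e [CharZero K] (S : Strings gr N) {e h : Module.End K V}
    (H : IsSl2 N S.b (cw S) e h) {T : Module.End K V} (hN : T * N = N * T) (hh : T * h = h * T) :
    e * T = T * e := by
  set D : Module.End K V := e * T - T * e with hD
  have h1 : D * N = N * D := by
    have h2 : e * N = N * e + h := by rw [← H.eN]; abel
    calc D * N = e * (T * N) - T * (e * N) := by rw [hD]; noncomm_ring
      _ = e * N * T - T * (e * N) := by rw [hN]; noncomm_ring
      _ = N * (e * T) - T * N * e + (h * T - T * h) := by rw [h2]; noncomm_ring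
      _ = N * D := by rw [hh, hN, hD]; noncomm_ring
  have h2 : h * D = D * h + (2 : K) • D := by
    have h3 : h * e = e * h + (2 : K) • e := by rw [← H.he]; abel
    have h4 : h * T = T * h := hh.symm
    have h5 : h * (e * T) = e * T * h + (2 : K) • (e * T) := by
      rw [← mul_assoc, h3, add_mul, mul_assoc, h4, smul_mul_assoc, mul_assoc]
    have h6 : h * (T * e) = T * e * h + (2 : K) • (T * e) := by
      rw [← mul_assoc, h4, mul_assoc, h3, mul_add, mul_smul_comm, mul_assoc]
    rw [hD, mul_sub, h5, h6, sub_mul, smul_sub]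
    abel
  have h3 : ∀ s, D (S.b ⟨s, 0⟩) = 0 := by
    intro s
    have h4 : h (D (S.b ⟨s, 0⟩)) = ((S.len s + 2 : ℕ) : K) • D (S.b ⟨s, 0⟩) := by
      have h5 := congrArg (fun A : Module.End K V => A (S.b ⟨s, 0⟩)) h2
      simp only [Module.End.mul_apply, LinearMap.add_apply, LinearMap.smul_apply] at h5
      rw [h5, H.wt, map_smul, ← add_smul]
      congr 1
      unfold cw
      push_cast
      simp
    refine ((Pool.Agent.Y141.MW.stL K V N _ S.b (cw S) e h H (S.len s + 2)).1 _ h4 ?_)
    have h5 : ∀ k : ℕ, (N ^ k) * D = D * (N ^ k) := by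
      intro k
      induction k with
      | zero => simp
      | succ k ih => rw [pow_succ, mul_assoc, ← h1, ← mul_assoc, ih, mul_assoc]
    rw [← Module.End.mul_apply, h5, Module.End.mul_apply, b_kill S s _ (by omega), map_zero]
  have h4 : D = 0 := by
    refine S.b.ext fun p => ?_
    obtain ⟨s, i, hi⟩ := p
    rw [b_pow S s i hi, LinearMap.zero_apply]
    have h5 : ∀ k : ℕ, D * (N ^ k) = (N ^ k) * D := by
      intro k
      induction k with
      | zero => simp
      | succ k ih => rw [pow_succ, ← mul_assoc, ih, mul_assoc, h1, mul_assoc]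
    rw [← Module.End.mul_apply, h5, Module.End.mul_apply, h3, map_zero]
  exact sub_eq_zero.1 h4

/-- An operator with a basis of eigenvectors: the eigenvectors with the eigenvalue `m`. -/
lemma mem_of_eigen [CharZero K] {ι : Type} (b : Basis ι K V) (w : ι → ℤ) {D : Module.End K V}
    (hD : ∀ i, D (b i) = (w i : K) • b i) {W : ℤ → Submodule K V} (hW : ∀ i, b i ∈ W (w i))
    {m : ℤ} {x : V} (hx : D x = (m : K) • x) : x ∈ W m := by
  classical
  have h1 : ∀ i, (b.repr x i) * ((w i : K) - m) = 0 := by
    intro i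
    have h3 : b.repr (D x) i = (w i : K) * b.repr x i := by
      have h4 : D x = (b.repr x).sum fun j a => a • ((w j : K) • b j) := by
        conv_lhs => rw [← b.linearCombination_repr x, Finsupp.linearCombination_apply, Finsupp.sum,
          map_sum]
        refine Finset.sum_congr rfl fun j _ => ?_
        rw [map_smul, hD]
      rw [h4, Finsupp.sum, map_sum, Finsupp.finset_sum_apply]
      have h5 : ∀ j ∈ (b.repr x).support, (b.repr (b.repr x j • ((w j : K) • b j))) i =
          if j = i then (w i : K) * b.repr x i else 0 := by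
        intro j _
        rw [map_smul, map_smul, b.repr_self, Finsupp.smul_apply, Finsupp.smul_apply,
          Finsupp.single_apply]
        split_ifs with hji
        · subst hji
          simp only [smul_eq_mul, mul_one]
          ring
        · simp
      rw [Finset.sum_congr rfl h5, Finset.sum_ite_eq' _ _ _]
      split_ifs with hi
      · rfl
      · rw [Finsupp.notMem_support_iff.1 hi, mul_zero]
    have h6 : b.repr (D x) i = (m : K) * b.repr x i := by rw [hx, map_smul]; rfl
    have h7 := h3.symm.trans h6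
    rw [mul_sub, mul_comm _ (w i : K), mul_comm _ (m : K), h7, sub_self]
  rw [← b.linearCombination_repr x, Finsupp.linearCombination_apply]
  refine Submodule.sum_mem _ fun i hi => ?_
  have h2 := (mul_eq_zero.1 (h1 i)).resolve_left (Finsupp.mem_support_iff.1 hi)
  have h3 : w i = m := by
    have := sub_eq_zero.1 h2
    exact_mod_cast this
  rw [← h3]
  exact Submodule.smul_mem _ _ (hW i)

/-- The operator that acts on `W r` as the multiplication by `r`. -/
lemma eigen_of_mem {ι : Type} [Finite ι] (b : Basis ι K V) (w : ι → ℤ)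
    {D : Module.End K V} (hD : ∀ i, D (b i) = (w i : K) • b i) {W : ℤ → Submodule K V}
    (hWi : iSupIndep W) (hW : ∀ i, b i ∈ W (w i)) {m : ℤ} {x : V} (hx : x ∈ W m) :
    D x = (m : K) • x := by
  classical
  have h1 : x ∈ Submodule.span K (b '' {i | w i = m}) := by
    rw [← gr_eq_span hWi b w hW m]
    exact hx
  clear hx
  induction h1 using Submodule.span_induction with
  | mem x hx =>
    obtain ⟨i, hi, rfl⟩ := hx
    rw [hD, show w i = m from hi]
  | zero => simp
  | add x y _ _ h1 h2 => rw [map_add, h1, h2, smul_add]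
  | smul a x _ h1 => rw [map_smul, h1, smul_comm]

/-- A diagonal operator. -/
noncomputable def diag {ι : Type} (b : Basis ι K V) (w : ι → ℤ) : Module.End K V :=
  b.constr K fun i => (w i : K) • b i

lemma diag_b {ι : Type} (b : Basis ι K V) (w : ι → ℤ) (i : ι) :
    diag b w (b i) = (w i : K) • b i := by
  unfold diag
  rw [Basis.constr_basis]

/-- **The sum of two commuting nilpotent operators**: `N` has degree `-2` with strings `S`, `A` has
degree `-2`, commutes with `N` and with the grading by the weights of the strings of `N`, and `A` is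
centred with respect to the difference of the two gradings. -/
theorem centred_add [CharZero K] [Module.Finite K V] (hgr : iSupIndep gr) (S : Strings gr N)
    (hN : ∀ r, ∀ x ∈ gr r, N x ∈ gr (r - 2)) {A : Module.End K V}
    (hA : ∀ r, ∀ x ∈ gr r, A x ∈ gr (r - 2)) (hAN : A * N = N * A) {h : Module.End K V}
    (hh : ∀ p, h (S.b p) = (cw S p : K) • S.b p) (hAh : A * h = h * A)
    (gr' : ℤ → Submodule K V) (hgr' : DirectSum.IsInternal gr')
    (hb' : ∀ p, S.b p ∈ gr' (dw S p - cw S p)) (hA' : ∀ r, ∀ x ∈ gr' r, A x ∈ gr' (r - 2))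
    (hC : Centred gr' A) : Centred gr (A + N) := by
  classical
  obtain ⟨e₂, h₂, H₂⟩ := Pool.Agent.Y664.MW.t_B2 K V gr N S
  have hhh : h₂ = h := S.b.ext fun p => by rw [H₂.wt, hh]; rfl
  subst hhh
  obtain ⟨S'⟩ := Pool.Agent.Y153.MW.stA K V gr' A hgr' hA'
  obtain ⟨e', h', H'⟩ := Pool.Agent.Y664.MW.t_B2 K V gr' A S'
  have htop := (Pool.Agent.Y614.MW.stF K V gr' A hgr' S').1 hC
  have hmem' : ∀ p, S'.b p ∈ gr' (cw S' p) := by
    intro p
    have := S'.mem p.1 p.2
    rw [htop] at this
    exact this
  set D : Module.End K V := diag S.b (dw S) with hD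
  have hDb : ∀ p, D (S.b p) = (dw S p : K) • S.b p := diag_b S.b (dw S)
  have hmem : ∀ p, S.b p ∈ gr (dw S p) := fun p => S.mem p.1 p.2
  -- `h'` is the difference
  have hdiff : h' = D - h₂ := by
    refine S.b.ext fun p => ?_
    have h1 := eigen_of_mem S'.b (cw S') (D := h') (fun i => H'.wt i)
      hgr'.submodule_iSupIndep hmem' (hb' p)
    rw [h1, LinearMap.sub_apply, hDb, hh, ← sub_smul]
    push_cast
    rfl
  -- degrees of operators with respect to `D`
  have hdeg : ∀ T : Module.End K V, (∀ r, ∀ x ∈ gr r, T x ∈ gr (r - 2)) →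
      D * T = T * D + (-2 : K) • T := by
    intro T hT
    refine S.b.ext fun p => ?_
    rw [Module.End.mul_apply, LinearMap.add_apply, Module.End.mul_apply, LinearMap.smul_apply,
      eigen_of_mem S.b (dw S) hDb hgr hmem (hT _ _ (hmem p)), hDb, map_smul, ← add_smul]
    congr 1
    push_cast
    ring
  have hDN := hdeg N hN
  have hDA := hdeg A hA
  have hhN : h₂ * N = N * h₂ + (-2 : K) • N := by rw [← H₂.hN]; abel
  have hDh : D * h₂ = h₂ * D := by
    refine S.b.ext fun p => ?_
    rw [Module.End.mul_apply, Module.End.mul_apply, hDb, hh, map_smul, map_smul, hDb, hh,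
      smul_comm]
  have hNh' : N * h' = h' * N := by
    rw [hdiff, mul_sub, sub_mul, hDN, hhN]
    abel
  have hh'h : h₂ * h' = h' * h₂ := by rw [hdiff, mul_sub, sub_mul, hDh]
  have k1 : e' * N = N * e' := comm_e S' H' hAN.symm hNh'
  have k2 : e' * h₂ = h₂ * e' := comm_e S' H' hAh.symm hh'h
  have k3 : e₂ * e' = e' * e₂ := comm_e S H₂ k1 k2
  have k4 : e₂ * A = A * e₂ := comm_e S H₂ hAN hAh
  have k5 : e₂ * h' = h' * e₂ := comm_e S H₂ hNh'.symm hh'h.symm
  have hsum : D = h' + h₂ := by rw [hdiff]; abel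
  have H : IsSl2 (A + N) S.b (dw S) (e' + e₂) D := by
    refine ⟨hDb, ?_, ?_, ?_⟩
    · have h1 : (e' + e₂) * (A + N) - (A + N) * (e' + e₂) =
          (e' * A - A * e') + (e₂ * N - N * e₂) + (e' * N - N * e') + (e₂ * A - A * e₂) := by
        noncomm_ring
      rw [h1, H'.eN, H₂.eN, k1, k4, sub_self, sub_self, add_zero, add_zero, hsum]
    · rw [mul_add, add_mul, hDN, hDA, smul_add]
      abel
    · have h1 : h' * e' = e' * h' + (2 : K) • e' := by rw [← H'.he]; abel
      have h2 : h₂ * e₂ = e₂ * h₂ + (2 : K) • e₂ := by rw [← H₂.he]; abel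
      rw [hsum]
      have h3 : (h' + h₂) * (e' + e₂) - (e' + e₂) * (h' + h₂) =
          (h' * e' - e' * h') + (h₂ * e₂ - e₂ * h₂) + (h' * e₂ - e₂ * h') + (h₂ * e' - e' * h₂) := by
        noncomm_ring
      rw [h3, H'.he, H₂.he, k5, k2, sub_self, sub_self, add_zero, add_zero, smul_add]
  intro m
  have h1 := Pool.Agent.Y141.MW.stL K V (A + N) _ S.b (dw S) (e' + e₂) D H m
  refine ⟨fun x hx hx0 => h1.1 x ?_ hx0, fun y hy => ?_⟩
  · have := eigen_of_mem S.b (dw S) hDb hgr hmem hx
    rw [this]
    push_cast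
    rfl
  · obtain ⟨x, hx, hxy⟩ := h1.2 y (by
      have := eigen_of_mem S.b (dw S) hDb hgr hmem hy
      rw [this]
      push_cast
      rfl)
    refine ⟨x, mem_of_eigen S.b (dw S) hDb hmem (m := (m : ℤ)) ?_, hxy⟩
    rw [hx]
    push_cast
    rfl

end Pool.Agent.K7.H9.ND
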