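import Pool.Agent.K7.H9.ND.Poly
import Pool.Agent.K7.H9.ND.Sl2

/-!
# The deformation of `A + N₂` to `N₁ + c N₂`
-/

set_option autoImplicit false

open Module

namespace Pool.Agent.K7.H9.ND

open Pool.Agent.Y163.MW

universe u v

section part

variable {K : Type u} [Field K] {V : Type v} [AddCommGroup V] [Module K V] {ι : Type}
  (b : Basis ι K V) (w : ι → ℤ)

/-- The projection to the span of the basis vectors of weight `a`. -/
noncomputable def pr (a : ℤ) : Module.End K V := by
  classical
  exact b.constr K fun i => if w i = a then b i else 0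

lemma pr_b (a : ℤ) (i : ι) [Decidable (w i = a)] : pr b w a (b i) = if w i = a then b i else 0 := by
  unfold pr
  rw [Basis.constr_basis]
  congr

/-- The component of degree `k` of the operator `T`. -/
noncomputable def part (T : Module.End K V) (k : ℤ) : Module.End K V :=
  b.constr K fun i => pr b w (w i + k) (T (b i))

lemma part_b (T : Module.End K V) (k : ℤ) (i : ι) :
    part b w T k (b i) = pr b w (w i + k) (T (b i)) := by
  unfold part
  rw [Basis.constr_basis]

/-- The span of the basis vectors of weight `a`. -/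
def wsp (a : ℤ) : Submodule K V := Submodule.span K (b '' {i | w i = a})

lemma pr_mem (a : ℤ) (x : V) : pr b w a x ∈ wsp b w a := by
  classical
  have h : x ∈ Submodule.span K (Set.range b) := by rw [b.span_eq]; trivial
  induction h using Submodule.span_induction with
  | mem x hx =>
    obtain ⟨i, rfl⟩ := hx
    rw [pr_b]
    split_ifs with hi
    · exact Submodule.subset_span ⟨i, hi, rfl⟩
    · exact Submodule.zero_mem _
  | zero => rw [map_zero]; exact Submodule.zero_mem _
  | add x y _ _ h1 h2 => rw [map_add]; exact Submodule.add_mem _ h1 h2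
  | smul c x _ h1 => rw [map_smul]; exact Submodule.smul_mem _ _ h1

lemma pr_of_mem {a : ℤ} {x : V} (hx : x ∈ wsp b w a) : pr b w a x = x := by
  classical
  unfold wsp at hx
  induction hx using Submodule.span_induction with
  | mem x hx =>
    obtain ⟨i, hi, rfl⟩ := hx
    rw [pr_b, if_pos (show w i = a from hi)]
  | zero => rw [map_zero]
  | add x y _ _ h1 h2 => rw [map_add, h1, h2]
  | smul c x _ h1 => rw [map_smul, h1]

lemma pr_of_mem_ne {a a' : ℤ} (ha : a ≠ a') {x : V} (hx : x ∈ wsp b w a) : pr b w a' x = 0 := by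
  classical
  unfold wsp at hx
  induction hx using Submodule.span_induction with
  | mem x hx =>
    obtain ⟨i, hi, rfl⟩ := hx
    rw [pr_b, if_neg]
    intro h
    exact ha (hi.symm.trans h)
  | zero => rw [map_zero]
  | add x y _ _ h1 h2 => rw [map_add, h1, h2, add_zero]
  | smul c x _ h1 => rw [map_smul, h1, smul_zero]

lemma part_of_mem (T : Module.End K V) (k : ℤ) {a : ℤ} {x : V} (hx : x ∈ wsp b w a) :
    part b w T k x = pr b w (a + k) (T x) := by
  unfold wsp at hx
  induction hx using Submodule.span_induction with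
  | mem x hx =>
    obtain ⟨i, hi, rfl⟩ := hx
    rw [part_b, show w i = a from hi]
  | zero => rw [map_zero, map_zero, map_zero]
  | add x y _ _ h1 h2 => rw [map_add, map_add, map_add, h1, h2]
  | smul c x _ h1 => rw [map_smul, map_smul, map_smul, h1]

/-- A homogeneous operator of degree `-2`. -/
def IsHom (N : Module.End K V) : Prop := ∀ i, N (b i) ∈ wsp b w (w i - 2)

variable {b w}

lemma IsHom.mem {N : Module.End K V} (hN : IsHom b w N) {a : ℤ} {x : V} (hx : x ∈ wsp b w a) :
    N x ∈ wsp b w (a - 2) := by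
  unfold wsp at hx
  induction hx using Submodule.span_induction with
  | mem x hx =>
    obtain ⟨i, hi, rfl⟩ := hx
    have := hN i
    rwa [show w i = a from hi] at this
  | zero => rw [map_zero]; exact Submodule.zero_mem _
  | add x y _ _ h1 h2 => rw [map_add]; exact Submodule.add_mem _ h1 h2
  | smul c x _ h1 => rw [map_smul]; exact Submodule.smul_mem _ _ h1

lemma IsHom.pr {N : Module.End K V} (hN : IsHom b w N) (a : ℤ) (x : V) :
    ND.pr b w (a - 2) (N x) = N (ND.pr b w a x) := by
  classical
  have h : x ∈ Submodule.span K (Set.range b) := by rw [b.span_eq]; trivial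
  induction h using Submodule.span_induction with
  | mem x hx =>
    obtain ⟨i, rfl⟩ := hx
    rw [pr_b]
    split_ifs with hi
    · rw [← hi]
      exact pr_of_mem b w (hN i)
    · rw [map_zero]
      exact pr_of_mem_ne b w (fun h => hi (by omega)) (hN i)
  | zero => rw [map_zero, map_zero, map_zero, map_zero]
  | add x y _ _ h1 h2 => rw [map_add, map_add, map_add, map_add, h1, h2]
  | smul c x _ h1 => rw [map_smul, map_smul, map_smul, map_smul, h1]

/-- The components of an operator that commutes with a homogeneous operator commute with it. -/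
lemma IsHom.part_comm {N T : Module.End K V} (hN : IsHom b w N) (hT : T * N = N * T) (k : ℤ) :
    part b w T k * N = N * part b w T k := by
  refine b.ext fun i => ?_
  rw [Module.End.mul_apply, Module.End.mul_apply, part_b, part_of_mem b w T k (hN i),
    ← Module.End.mul_apply T N, hT, Module.End.mul_apply, ← hN.pr]
  congr 2
  ring

lemma part_diag {h : Module.End K V} (hh : ∀ i, h (b i) = (w i : K) • b i) (T : Module.End K V)
    (k : ℤ) : h * part b w T k = part b w T k * h + (k : K) • part b w T k := by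
  refine b.ext fun i => ?_
  have h1 : ∀ (a : ℤ) (x : V), x ∈ wsp b w a → h x = (a : K) • x := by
    intro a x hx
    unfold wsp at hx
    induction hx using Submodule.span_induction with
    | mem x hx =>
      obtain ⟨i, hi, rfl⟩ := hx
      rw [hh, show w i = a from hi]
    | zero => rw [map_zero, smul_zero]
    | add x y _ _ h1 h2 => rw [map_add, h1, h2, smul_add]
    | smul c x _ h1 => rw [map_smul, h1, smul_comm]
  rw [Module.End.mul_apply, LinearMap.add_apply, Module.End.mul_apply, LinearMap.smul_apply, hh,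
    map_smul, part_b, h1 _ _ (pr_mem b w _ _), ← add_smul]
  push_cast
  rfl

/-- The components of a homogeneous element for another grading. -/
lemma pr_gr {d : ι → ℤ} {gr : ℤ → Submodule K V} (hgr : ∀ r, gr r = wsp b d r) (a r : ℤ) {x : V}
    (hx : x ∈ gr r) : ND.pr b w a x ∈ gr r := by
  classical
  rw [hgr] at hx ⊢
  unfold wsp at hx
  induction hx using Submodule.span_induction with
  | mem x hx =>
    obtain ⟨i, hi, rfl⟩ := hx
    rw [pr_b]
    split_ifs with h
    · exact Submodule.subset_span ⟨i, hi, rfl⟩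
    · exact Submodule.zero_mem _
  | zero => rw [map_zero]; exact Submodule.zero_mem _
  | add x y _ _ h1 h2 => rw [map_add]; exact Submodule.add_mem _ h1 h2
  | smul c x _ h1 => rw [map_smul]; exact Submodule.smul_mem _ _ h1

lemma part_gr {d : ι → ℤ} {gr : ℤ → Submodule K V} (hgr : ∀ r, gr r = wsp b d r)
    {T : Module.End K V} {t : ℤ} (hT : ∀ r, ∀ x ∈ gr r, T x ∈ gr (r + t)) (k r : ℤ) {x : V}
    (hx : x ∈ gr r) : part b w T k x ∈ gr (r + t) := by
  have hx' := hx
  rw [hgr] at hx'
  unfold wsp at hx'
  clear hx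
  induction hx' using Submodule.span_induction with
  | mem x hx =>
    obtain ⟨i, hi, rfl⟩ := hx
    rw [part_b]
    refine pr_gr hgr _ _ (hT r _ ?_)
    rw [hgr]
    exact Submodule.subset_span ⟨i, hi, rfl⟩
  | zero => rw [map_zero]; exact Submodule.zero_mem _
  | add x y _ _ h1 h2 => rw [map_add]; exact Submodule.add_mem _ h1 h2
  | smul c x _ h1 => rw [map_smul]; exact Submodule.smul_mem _ _ h1

/-- An element is the sum of its components. -/
lemma sum_pr [Finite ι] {B : ℕ} (hB : ∀ i, |w i| ≤ B) {a : ℤ} (ha : |a| ≤ B) {x : V}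
    (hx : x ∈ Submodule.span K (b '' {i | w i ≤ a})) :
    ∑ k ∈ Finset.range (2 * B + 1), ND.pr b w (a - k) x = x := by
  classical
  induction hx using Submodule.span_induction with
  | mem x hx =>
    obtain ⟨i, hi, rfl⟩ := hx
    have hi' : w i ≤ a := hi
    have h1 := abs_le.1 (hB i)
    have h2 := abs_le.1 ha
    rw [Finset.sum_eq_single (a - w i).toNat]
    · rw [pr_b, if_pos]
      rw [Int.toNat_of_nonneg (by omega)]
      ring
    · intro k _ hk
      rw [pr_b, if_neg]
      intro h
      apply hk
      omega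
    · intro hk
      exfalso
      apply hk
      rw [Finset.mem_range]
      omega
  | zero => simp
  | add x y _ _ h1 h2 => simp only [map_add, Finset.sum_add_distrib, h1, h2]
  | smul c x _ h1 => simp only [map_smul, ← Finset.smul_sum, h1]

lemma wsp_internal [Finite ι] : DirectSum.IsInternal (wsp b w) := by
  classical
  have h1 : wsp b w = fun r => ⨆ (i : ι) (_ : w i = r), Submodule.span K {b i} := by
    funext r
    unfold wsp
    rw [Submodule.span_eq_iSup_of_singleton_spans, iSup_image]
    rfl
  have h2 : iSupIndep fun i => Submodule.span K {b i} :=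
    b.linearIndependent.iSupIndep_span_singleton
  rw [DirectSum.isInternal_submodule_iff_iSupIndep_and_iSup_eq_top, h1]
  refine ⟨iSupIndep_fib h2 w, ?_⟩
  rw [iSup_fib, ← Submodule.span_range_eq_iSup, b.span_eq]

end part

section fam

variable {K : Type u} [Field K] {V : Type v} [AddCommGroup V] [Module K V]
  {gr : ℤ → Submodule K V}

/-- Transport of `Centred`. -/
lemma Centred.transport {T T' : Module.End K V} (e : V ≃ₗ[K] V) (he : ∀ r, ∀ x, x ∈ gr r ↔ e x ∈ gr r)
    (hT : ∀ x, e (T x) = T' (e x)) (h : Centred gr T) : Centred gr T' := by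
  have hk : ∀ (k : ℕ) x, e ((T ^ k) x) = (T' ^ k) (e x) := by
    intro k
    induction k with
    | zero => intro x; rfl
    | succ k ih =>
      intro x
      rw [pow_succ, pow_succ, Module.End.mul_apply, Module.End.mul_apply, ih, hT]
  intro a
  refine ⟨fun x hx hx0 => ?_, fun y hy => ?_⟩
  · have h1 : e.symm x ∈ gr a := by rw [he, e.apply_symm_apply]; exact hx
    have h2 : (T ^ a) (e.symm x) = 0 := by
      apply e.injective
      rw [hk, e.apply_symm_apply, hx0, map_zero]
    have h3 := (h a).1 _ h1 h2
    have h4 := congrArg e h3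
    rwa [e.apply_symm_apply, map_zero] at h4
  · obtain ⟨x, hx, hxy⟩ := (h a).2 (e.symm y) (by rw [he, e.apply_symm_apply]; exact hy)
    exact ⟨e x, (he _ _).1 hx, by rw [← hk, hxy, e.apply_symm_apply]⟩

variable {N₁ N₂ : Module.End K V}

lemma isHom_strings (S : Strings gr N₂) : IsHom S.b (cw S) N₂ := by
  rintro ⟨s, i, hi⟩
  by_cases h : i + 1 < S.len s + 1
  · have h1 := S.succ s ⟨i, by omega⟩
    have h2 : N₂ (S.b ⟨s, ⟨i, hi⟩⟩) = S.b ⟨s, ⟨i + 1, h⟩⟩ := h1
    rw [h2]
    refine Submodule.subset_span ⟨⟨s, ⟨i + 1, h⟩⟩, ?_, rfl⟩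
    change cw S ⟨s, ⟨i + 1, h⟩⟩ = cw S ⟨s, ⟨i, hi⟩⟩ - 2
    unfold cw
    push_cast
    ring
  · have h1 := S.last s
    have h2 : (⟨s, ⟨i, hi⟩⟩ : Σ s : S.ι, Fin (S.len s + 1)) = ⟨s, Fin.last (S.len s)⟩ := by
      congr 1
      apply Fin.ext
      change i = S.len s
      omega
    rw [h2, h1]
    exact Submodule.zero_mem _

/-- **The generic combination is centred** if the graded part of `N₁`, for the monodromy filtration of
`N₂`, is centred with respect to the shifted weights. -/
theorem exists_centred [CharZero K] [Module.Finite K V] (hgr : DirectSum.IsInternal gr)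
    (h₁ : ∀ r, ∀ x ∈ gr r, N₁ x ∈ gr (r - 2)) (h₂ : ∀ r, ∀ x ∈ gr r, N₂ x ∈ gr (r - 2))
    (hcomm : N₁ * N₂ = N₂ * N₁) (S : Strings gr N₂)
    (hfil : ∀ p, N₁ (S.b p) ∈ Submodule.span K (S.b '' {p' | cw S p' ≤ cw S p}))
    (hC : Centred (wsp S.b fun p => dw S p - cw S p) (part S.b (cw S) N₁ 0)) :
    ∃ c : K, Centred gr (N₁ + c • N₂) := by
  classical
  set w := cw S with hw
  have hind := hgr.submodule_iSupIndep
  have hgrw : ∀ r, gr r = wsp S.b (dw S) r := fun r => gr_eq_span hind S.b (dw S) (fun p => S.mem p.1 p.2) r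
  have hhom : IsHom S.b w N₂ := isHom_strings S
  obtain ⟨B, hB⟩ : ∃ B : ℕ, ∀ p, |w p| ≤ B := by
    refine ⟨∑ p, (w p).natAbs, fun p => ?_⟩
    rw [Int.abs_eq_natAbs]
    exact_mod_cast Finset.single_le_sum (f := fun p => (w p).natAbs) (fun _ _ => Nat.zero_le _)
      (Finset.mem_univ p)
  set A := part S.b w N₁ 0 with hA
  set h : Module.End K V := diag S.b w with hh
  have hhb : ∀ p, h (S.b p) = (w p : K) • S.b p := diag_b S.b w
  have hcent : Centred gr (A + N₂) := by
    refine centred_add hind S h₂ (A := A) (fun r x hx => ?_) (hhom.part_comm hcomm 0) (h := h) hhb ?_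
      (wsp S.b fun p => dw S p - cw S p) wsp_internal
      (fun p => Submodule.subset_span ⟨p, rfl, rfl⟩) (fun r x hx => ?_) hC
    · exact part_gr (b := S.b) (w := w) hgrw (t := -2) (fun r x hx => h₁ r x hx) 0 r hx
    · have := part_diag hhb N₁ 0
      rw [this]
      simp [hA]
    · -- the graded part of `N₁` has degree `-2` for the difference
      unfold wsp at hx ⊢
      induction hx using Submodule.span_induction with
      | mem x hx =>
        obtain ⟨p, hp, rfl⟩ := hx
        have h3 : A (S.b p) ∈ wsp S.b w (w p) := by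
          rw [hA, part_b]
          have := pr_mem S.b w (w p + 0) (N₁ (S.b p))
          rwa [add_zero] at this ⊢
        have h4 : A (S.b p) ∈ wsp S.b (dw S) (dw S p - 2) := by
          rw [← hgrw]
          refine part_gr (b := S.b) (w := w) hgrw (t := -2) (fun r x hx => h₁ r x hx) 0 _ ?_
          exact S.mem p.1 p.2
        have h5 : A (S.b p) ∈ Submodule.span K (S.b '' ({i | w i = w p} ∩ {i | dw S i = dw S p - 2})) := by
          rw [← span_image_inf]
          exact ⟨h3, h4⟩
        refine Submodule.span_mono (Set.image_mono ?_) h5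
        rintro i ⟨hi1, hi2⟩
        have e1 : w i = w p := hi1
        have e2 : dw S i = dw S p - 2 := hi2
        have e3 : dw S p - cw S p = r := hp
        change dw S i - cw S i = r - 2
        rw [hw] at e1
        omega
      | zero => rw [map_zero]; exact Submodule.zero_mem _
      | add x y _ _ h1 h2 => rw [map_add]; exact Submodule.add_mem _ h1 h2
      | smul c x _ h1 => rw [map_smul]; exact Submodule.smul_mem _ _ h1
  -- the family
  let Nf : Fin (2 * B) → Module.End K V := fun i => part S.b w N₁ (-((i : ℕ) + 1 : ℤ))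
  have hdeg : ∀ c : Fin (2 * B) → K, ∀ r, ∀ x ∈ gr r, comb (A + N₂) Nf c x ∈ gr (r - 2) := by
    intro c r x hx
    unfold comb
    rw [LinearMap.add_apply, LinearMap.add_apply, LinearMap.sum_apply]
    refine Submodule.add_mem _ (Submodule.add_mem _ ?_ (h₂ r x hx)) (Submodule.sum_mem _ fun i _ => ?_)
    · exact part_gr (b := S.b) (w := w) hgrw (t := -2) (fun r x hx => h₁ r x hx) 0 r hx
    · rw [LinearMap.smul_apply]
      exact Submodule.smul_mem _ _
        (part_gr (b := S.b) (w := w) hgrw (t := -2) (fun r x hx => h₁ r x hx) _ r hx)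
  obtain ⟨P, -, hP⟩ := pol_centred (A + N₂) Nf gr hind hdeg
  have hP0 : MvPolynomial.eval (fun _ => (0 : K)) P ≠ 0 := by
    rw [← hP]
    have h1 : comb (A + N₂) Nf (fun _ => (0 : K)) = A + N₂ := by
      unfold comb
      simp
    rw [h1]
    exact hcent
  set Q : Polynomial K := MvPolynomial.aeval (fun i : Fin (2 * B) => (Polynomial.X : Polynomial K) ^
    ((i : ℕ) + 1)) P with hQ
  have hQe : ∀ u : K, Q.eval u = MvPolynomial.eval (fun i : Fin (2 * B) => u ^ ((i : ℕ) + 1)) P := by
    intro u
    have h1 : (Polynomial.evalRingHom u).comp (MvPolynomial.aeval (fun i : Fin (2 * B) =>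
        (Polynomial.X : Polynomial K) ^ ((i : ℕ) + 1)) : MvPolynomial (Fin (2 * B)) K →ₐ[K] _).toRingHom =
        MvPolynomial.eval (fun i : Fin (2 * B) => u ^ ((i : ℕ) + 1)) := by
      refine MvPolynomial.ringHom_ext (fun a => ?_) (fun i => ?_)
      · simp
      · simp
    rw [hQ, ← h1]
    rfl
  have hQ0 : Q ≠ 0 := by
    intro h0
    apply hP0
    have h1 := hQe 0
    rw [h0, Polynomial.eval_zero] at h1
    have h2 : (fun _ : Fin (2 * B) => (0 : K)) = fun i : Fin (2 * B) => (0 : K) ^ ((i : ℕ) + 1) := by
      funext i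
      rw [zero_pow (Nat.succ_ne_zero _)]
    rw [h2]
    exact h1.symm
  obtain ⟨u, hu⟩ : ∃ u, (Q * Polynomial.X).eval u ≠ 0 := by
    by_contra hcon
    push Not at hcon
    have h1 : Q * Polynomial.X = 0 := Polynomial.funext fun r => by rw [hcon r, Polynomial.eval_zero]
    rcases mul_eq_zero.1 h1 with h2 | h2
    · exact hQ0 h2
    · exact Polynomial.X_ne_zero h2
  rw [Polynomial.eval_mul, Polynomial.eval_X] at hu
  have hu0 : u ≠ 0 := right_ne_zero_of_mul hu
  have hQu : Q.eval u ≠ 0 := left_ne_zero_of_mul hu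
  rw [hQe, ← hP] at hQu
  refine ⟨(u ^ 2)⁻¹, ?_⟩
  -- the scaling
  let lam : K → Module.End K V := fun t => S.b.constr K fun p => t ^ (w p) • S.b p
  have hlam : ∀ t p, lam t (S.b p) = t ^ (w p) • S.b p := fun t p => Basis.constr_basis _ _ _ _
  have hlamm : ∀ t a x, x ∈ wsp S.b w a → lam t x = t ^ a • x := by
    intro t a x hx
    unfold wsp at hx
    induction hx using Submodule.span_induction with
    | mem x hx =>
      obtain ⟨i, hi, rfl⟩ := hx
      rw [hlam, show w i = a from hi]
    | zero => rw [map_zero, smul_zero]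
    | add x y _ _ h1 h2 => rw [map_add, h1, h2, smul_add]
    | smul c x _ h1 => rw [map_smul, h1, smul_comm]
  have hinv : ∀ t : K, t ≠ 0 → lam t⁻¹ * lam t = 1 := by
    intro t ht
    refine S.b.ext fun p => ?_
    rw [Module.End.mul_apply, hlam, map_smul, hlam, smul_smul, ← mul_zpow, mul_inv_cancel₀ ht,
      one_zpow, one_smul]
    rfl
  let e : V ≃ₗ[K] V := LinearEquiv.ofLinear (lam u) (lam u⁻¹)
    (by
      have := hinv u⁻¹ (inv_ne_zero hu0)
      rw [inv_inv] at this
      exact this) (hinv u hu0)
  have hlgr : ∀ t r x, x ∈ gr r → lam t x ∈ gr r := by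
    intro t r x hx
    rw [hgrw] at hx ⊢
    unfold wsp at hx ⊢
    induction hx using Submodule.span_induction with
    | mem x hx =>
      obtain ⟨i, hi, rfl⟩ := hx
      rw [hlam]
      exact Submodule.smul_mem _ _ (Submodule.subset_span ⟨i, hi, rfl⟩)
    | zero => rw [map_zero]; exact Submodule.zero_mem _
    | add x y _ _ h1 h2 => rw [map_add]; exact Submodule.add_mem _ h1 h2
    | smul c x _ h1 => rw [map_smul]; exact Submodule.smul_mem _ _ h1
  refine Centred.transport e (fun r x => ⟨fun hx => hlgr u r x hx, fun hx => ?_⟩) (fun x => ?_) hQu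
  · have h1 := hlgr u⁻¹ r _ hx
    have h2 : lam u⁻¹ (e x) = x := by
      have := congrArg (fun T : Module.End K V => T x) (hinv u hu0)
      exact this
    rwa [h2] at h1
  · have key : lam u * comb (A + N₂) Nf (fun i => u ^ ((i : ℕ) + 1)) =
        (N₁ + (u ^ 2)⁻¹ • N₂) * lam u := by
      refine S.b.ext fun p => ?_
      have h3 : comb (A + N₂) Nf (fun i => u ^ ((i : ℕ) + 1)) (S.b p) = N₂ (S.b p) +
          ∑ k ∈ Finset.range (2 * B + 1), u ^ k • pr S.b w (w p - k) (N₁ (S.b p)) := by
        unfold comb
        rw [LinearMap.add_apply, LinearMap.add_apply, LinearMap.sum_apply,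
          Finset.sum_range_succ', Fin.sum_univ_eq_sum_range
            (fun i => (u ^ (i + 1) • part S.b w N₁ (-((i : ℕ) + 1 : ℤ))) (S.b p)) (2 * B)]
        rw [hA, part_b, pow_zero, one_smul, Nat.cast_zero, sub_zero, add_zero]
        have h4 : ∀ i ∈ Finset.range (2 * B), (u ^ (i + 1) • part S.b w N₁ (-((i : ℕ) + 1 : ℤ)))
            (S.b p) = u ^ (i + 1) • pr S.b w (w p - ((i + 1 : ℕ) : ℤ)) (N₁ (S.b p)) := by
          intro i _
          rw [LinearMap.smul_apply, part_b]
          congr 3
        rw [Finset.sum_congr rfl h4]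
        abel
      have h6 : u ^ (w p - 2) = u ^ (w p) * (u ^ 2)⁻¹ := by
        rw [zpow_sub₀ hu0, div_eq_mul_inv, zpow_ofNat]
      rw [Module.End.mul_apply, h3, map_add, hlamm u _ _ (hhom p), map_sum]
      have h5 : ∀ k ∈ Finset.range (2 * B + 1),
          lam u (u ^ k • pr S.b w (w p - k) (N₁ (S.b p))) =
          u ^ (w p) • pr S.b w (w p - k) (N₁ (S.b p)) := by
        intro k _
        rw [map_smul, hlamm u _ _ (pr_mem S.b w _ _), smul_smul, zpow_sub₀ hu0, zpow_natCast]
        congr 1
        field_simp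
      rw [Finset.sum_congr rfl h5, ← Finset.smul_sum, sum_pr hB (hB p) (hfil p),
        Module.End.mul_apply, hlam, map_smul, LinearMap.add_apply, LinearMap.smul_apply, smul_add,
        smul_smul, h6, add_comm]
    exact congrArg (fun T : Module.End K V => T x) key

end fam

end Pool.Agent.K7.H9.ND
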