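import Pool.Agent.K7.H9.ND.Near
import Mathlib.Algebra.MvPolynomial.SchwartzZippel

/-!
# Purity near a degenerate fibre
-/

set_option autoImplicit false

open Module

universe u v w

namespace Pool.Agent.K7.H9.ND

open Pool.Agent.Y163.MW Pool.Agent.Y143

variable {Ω : Type w} [Field Ω] [CharZero Ω] [IsAlgClosed Ω] {q : ℕ} {L : Limit.{v, w} Ω} {m : ℤ}

/-- Purity for one value of the parameter. -/
theorem exists_centred_fibre (hq : 1 < q) (hL : L.IsLimit q) (hS : L.HasPureStrata q m) :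
    ∃ c : Ω, Centred (fun c : ℤ => wtp L.F q (m + c)) (L.N₁ + c • L.N₂) := by
  have := hL.finite
  obtain ⟨M, hM, hD⟩ := hS
  have hgr := Limit.internal (m := m) hq hL
  have h₁ : ∀ r : ℤ, ∀ x ∈ wtp L.F q (m + r), L.N₁ x ∈ wtp L.F q (m + (r - 2)) := by
    intro r x hx
    have := N_wtp (by omega) hL.N₁_F hx
    rwa [show m + r - 2 = m + (r - 2) by ring] at this
  have h₂ : ∀ r : ℤ, ∀ x ∈ wtp L.F q (m + r), L.N₂ x ∈ wtp L.F q (m + (r - 2)) := by
    intro r x hx
    have := N_wtp (by omega) hL.N₂_F hx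
    rwa [show m + r - 2 = m + (r - 2) by ring] at this
  have hcomm : L.N₁ * L.N₂ = L.N₂ * L.N₁ := LinearMap.ext hL.comm
  obtain ⟨S⟩ := Pool.Agent.Y153.MW.stA Ω L.V (fun c : ℤ => wtp L.F q (m + c)) L.N₂ hgr h₂
  obtain ⟨e, h, H⟩ := Pool.Agent.Y664.MW.t_B2 Ω L.V (fun c : ℤ => wtp L.F q (m + c)) L.N₂ S
  have hMfl : ∀ a, M a = fl S.b (cw S) a := fun a =>
    Pool.Agent.Y68.MW.stD Pool.Agent.Y141.MW.stL Ω L.V L.N₂ _ S.b (cw S) e h H M hM a
  have hF : ∀ a, ∀ x ∈ M a, L.F x ∈ M a := fun a x hx =>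
    hM.functorial hM L.F (fun _ _ => trivial) (c := (q : Ω)) (Nat.cast_ne_zero.2 (by omega))
      (fun x _ => hL.N₂_F x) a hx
  have hN : ∀ a, ∀ x ∈ M a, L.N₁ x ∈ M a := fun a x hx =>
    hM.functorial hM L.N₁ (fun _ _ => trivial) (c := (1 : Ω)) one_ne_zero
      (fun x _ => by rw [one_smul]; exact (hL.comm x).symm) a hx
  have hgrw : ∀ r : ℤ, wtp L.F q (m + r) = wsp S.b (dw S) r := fun r =>
    gr_eq_span (gr := fun c : ℤ => wtp L.F q (m + c)) hgr.submodule_iSupIndep S.b (dw S)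
      (fun p => S.mem p.1 p.2) r
  refine exists_centred hgr h₁ h₂ hcomm S (fun p => ?_)
    (centred_part hq hL S.b (cw S) (dw S) hMfl hgrw hF hN hD)
  have h1 : S.b p ∈ M (cw S p) := by
    rw [hMfl]
    exact Submodule.subset_span ⟨p, le_refl (cw S p), rfl⟩
  have h2 := hN _ _ h1
  rw [hMfl] at h2
  exact h2

/-- The Schwartz-Zippel lemma. -/
lemma schwartz_zippel [DecidableEq Ω] {n : ℕ} {p : MvPolynomial (Fin n) Ω} (hp : p ≠ 0) {d : ℕ}
    (hd : p.totalDegree ≤ d) (S : Finset Ω) :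
    (((Fintype.piFinset fun _ : Fin n => S)).filter fun c => MvPolynomial.eval c p = 0).card * S.card ≤
      d * S.card ^ n := by
  obtain rfl | hs := S.eq_empty_or_nonempty
  · simp
  have h1 := MvPolynomial.schwartz_zippel_totalDegree hp S
  have h2 : (0 : ℚ≥0) < (S.card : ℚ≥0) := by exact_mod_cast hs.card_pos
  rw [div_le_div_iff₀ (by positivity) h2] at h1
  have h3 : (((Fintype.piFinset fun _ : Fin n => S)).filter
      fun c => MvPolynomial.eval c p = 0).card * S.card ≤ p.totalDegree * S.card ^ n := by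
    exact_mod_cast h1
  exact h3.trans (Nat.mul_le_mul_right _ hd)

/-- The zeros of a polynomial in one variable. -/
lemma finite_zeros {p : MvPolynomial (Fin 1) Ω} {d : ℕ} (hd : p.totalDegree ≤ d)
    (hp : ∃ c, MvPolynomial.eval c p ≠ 0) :
    ∃ E : Finset Ω, E.card ≤ d ∧ ∀ c : Ω, c ∉ E → MvPolynomial.eval (fun _ => c) p ≠ 0 := by
  classical
  have hP : ∀ c : Ω, (MvPolynomial.aeval (fun _ => (Polynomial.X : Polynomial Ω)) p).eval c =
      MvPolynomial.eval (fun _ => c) p := by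
    intro c
    have h1 : (Polynomial.evalRingHom c).comp
        (MvPolynomial.aeval (fun _ : Fin 1 => (Polynomial.X : Polynomial Ω))).toRingHom =
        MvPolynomial.eval (fun _ => c) := by
      apply MvPolynomial.ringHom_ext
      · intro a
        simp
      · intro i
        simp
    exact congrFun (congrArg DFunLike.coe h1) p
  have hP0 : MvPolynomial.aeval (fun _ => (Polynomial.X : Polynomial Ω)) p ≠ 0 := by
    intro h0
    obtain ⟨c, hc⟩ := hp
    apply hc
    rw [show c = fun _ => c 0 by funext i; rw [Fin.fin_one_eq_zero i], ← hP, h0, Polynomial.eval_zero]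
  refine ⟨(MvPolynomial.aeval (fun _ => (Polynomial.X : Polynomial Ω)) p).roots.toFinset, ?_, ?_⟩
  · refine (Multiset.toFinset_card_le _).trans ((Polynomial.card_roots' _).trans (le_trans ?_ hd))
    have := MvPolynomial.aeval_natDegree_le (R := Ω) (m := p.totalDegree) (n := 1) p le_rfl
      (fun _ => (Polynomial.X : Polynomial Ω)) (fun _ => Polynomial.natDegree_X_le)
    simpa using this
  · intro c hc h0
    apply hc
    rw [Multiset.mem_toFinset, Polynomial.mem_roots hP0, Polynomial.IsRoot, hP, h0]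

/-- Purity for almost all values of the parameter. -/
theorem finite_exceptions (hq : 1 < q) (hL : L.IsLimit q) (hS : L.HasPureStrata q m) :
    ∃ E : Finset Ω, E.card ≤ L.moment q m ∧ ∀ c, c ∉ E →
      Centred (fun c : ℤ => wtp L.F q (m + c)) (L.N₁ + c • L.N₂) := by
  have := hL.finite
  have hgr := Limit.internal (m := m) hq hL
  have h₁ : ∀ r : ℤ, ∀ x ∈ wtp L.F q (m + r), L.N₁ x ∈ wtp L.F q (m + (r - 2)) := by
    intro r x hx
    have := N_wtp (by omega) hL.N₁_F hx
    rwa [show m + r - 2 = m + (r - 2) by ring] at this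
  have h₂ : ∀ r : ℤ, ∀ x ∈ wtp L.F q (m + r), L.N₂ x ∈ wtp L.F q (m + (r - 2)) := by
    intro r x hx
    have := N_wtp (by omega) hL.N₂_F hx
    rwa [show m + r - 2 = m + (r - 2) by ring] at this
  have hcomb : ∀ c : Fin 1 → Ω, comb L.N₁ (fun _ => L.N₂) c = L.N₁ + c 0 • L.N₂ := by
    intro c
    unfold comb
    rw [Fin.sum_univ_one]
  obtain ⟨p, hp, hpc⟩ := pol_centred L.N₁ (fun _ : Fin 1 => L.N₂)
    (fun c : ℤ => wtp L.F q (m + c)) hgr.submodule_iSupIndep (fun c r x hx => by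
      rw [hcomb, LinearMap.add_apply, LinearMap.smul_apply]
      exact Submodule.add_mem _ (h₁ r x hx) (Submodule.smul_mem _ _ (h₂ r x hx)))
  obtain ⟨c₀, hc₀⟩ := exists_centred_fibre hq hL hS
  obtain ⟨E, hE, hE'⟩ := finite_zeros hp ⟨fun _ => c₀, by rw [← hpc, hcomb]; exact hc₀⟩
  refine ⟨E, hE, fun c hc => ?_⟩
  have h3 := (hpc fun _ => c).2 (hE' c hc)
  rwa [hcomb] at h3

end Pool.Agent.K7.H9.ND
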