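import Pool.Agent.K7.H9.ND.GeoDefs
import Pool.Agent.K7.H9.ND.Main

/-!
# Degenerating families over a local field
-/

set_option autoImplicit false

open Module

universe u v w

namespace Pool.Agent.K7.H9.ND

open Pool.Agent.H914 Pool.Agent.Y163.MW Pool.Agent.Y143

variable {K : Type u} [Field K] {Ω : Type w} [Field Ω] [CharZero Ω] {q : ℕ}

lemma IsMWSum.isRep {T : Theory.{u, v, w} K Ω} (hT : ∀ X, (T.H X).IsCoh q) (hq : 0 < q) {w' : ℤ}
    {P : FN.{v, w} Ω} (hP : IsMWSum T q w' P) : P.IsRep q := by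
  obtain ⟨r, Y, j, k, ρ, hjk, hmw, hρ, hinj, hsurj⟩ := hP
  have hfin : ∀ i, Module.Finite Ω (T.H (Y i)).V := fun i => (hT (Y i)).finite
  have hq0 : (q : Ω) ≠ 0 := Nat.cast_ne_zero.2 (by omega)
  refine ⟨?_, ?_, ?_⟩
  · refine Module.Finite.of_injective (LinearMap.pi ρ) ?_
    rw [← LinearMap.ker_eq_bot, LinearMap.ker_eq_bot']
    intro x hx
    exact hinj x fun i => congrFun hx i
  · intro x
    refine sub_eq_zero.1 (hinj _ fun i => ?_)
    rw [map_sub, map_smul, (hρ i).monodromy, (hρ i).frob, (hρ i).frob, (hρ i).monodromy, map_smul,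
      (hT (Y i)).N_F, smul_comm, sub_self]
  · intro α x h0 hx
    obtain ⟨i, hi⟩ : ∃ i, ρ i x ≠ 0 := by
      by_contra hno
      push_neg at hno
      exact h0 (hinj x hno)
    have h1 : (q : Ω) ^ k i • (T.H (Y i)).F (ρ i x) = α • ρ i x := by
      rw [← (hρ i).frob, hx, map_smul]
    have h2 : (T.H (Y i)).F (ρ i x) = ((q : Ω) ^ (-k i) * α) • ρ i x := by
      rw [mul_smul, ← h1, smul_smul, ← zpow_add₀ hq0, neg_add_cancel, zpow_zero, one_smul]
    obtain ⟨w'', hw⟩ := (hT (Y i)).weil (j i) _ _ ((hρ i).mem x) hi h2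
    have h3 := hw.twist (by omega : q ≠ 0) (k i)
    rw [← mul_assoc, ← zpow_add₀ hq0, add_neg_cancel, zpow_zero, one_mul] at h3
    exact ⟨_, h3⟩

lemma IsMWSum.pure {T : Theory.{u, v, w} K Ω} (hq : 0 < q) {w' : ℤ}
    {P : FN.{v, w} Ω} (hP : IsMWSum T q w' P) : P.Pure q w' := by
  classical
  obtain ⟨r, Y, j, k, ρ, hjk, hmw, hρ, hinj, hsurj⟩ := hP
  have hq0 : (q : Ω) ≠ 0 := Nat.cast_ne_zero.2 (by omega)
  choose M hM hMα using hmw
  have hpow : ∀ (n : ℕ) i x, ρ i ((P.N ^ n) x) = ((T.H (Y i)).N ^ n) (ρ i x) := by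
    intro n
    induction n with
    | zero => intro i x; rfl
    | succ n ih =>
      intro i x
      rw [pow_succ', pow_succ', Module.End.mul_apply, Module.End.mul_apply, (hρ i).monodromy, ih]
  have hmem : ∀ (s : ℤ) (x : P.V),
      x ∈ (⨅ i, (M i s).comap (ρ i) : Submodule Ω P.V) ↔ ∀ i, ρ i x ∈ M i s := by
    intro s x
    simp only [Submodule.mem_iInf, Submodule.mem_comap]
  refine ⟨fun s => ⨅ i, (M i s).comap (ρ i), ⟨?_, ?_, ?_, ?_, ?_, ?_, ?_⟩, ?_⟩
  · intro s t hst x hx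
    rw [hmem] at hx ⊢
    exact fun i => (hM i).mono hst (hx i)
  · choose a ha using fun i => (hM i).bot
    obtain ⟨c, hc⟩ : ∃ c : ℤ, ∀ i, c ≤ a i := by
      refine ⟨-∑ i, |a i|, fun i => ?_⟩
      have h1 := Finset.single_le_sum (f := fun i => |a i|) (fun _ _ => abs_nonneg _)
        (Finset.mem_univ i)
      have h2 := neg_abs_le (a i)
      omega
    refine ⟨c, ?_⟩
    rw [Submodule.eq_bot_iff]
    intro x hx
    rw [hmem] at hx
    refine hinj x fun i => ?_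
    have h1 := (hM i).mono (hc i) (hx i)
    rwa [ha, Submodule.mem_bot] at h1
  · choose a ha using fun i => (hM i).top
    obtain ⟨c, hc⟩ : ∃ c : ℤ, ∀ i, a i ≤ c := by
      refine ⟨∑ i, |a i|, fun i => ?_⟩
      have h1 := Finset.single_le_sum (f := fun i => |a i|) (fun _ _ => abs_nonneg _)
        (Finset.mem_univ i)
      have h2 := le_abs_self (a i)
      omega
    refine ⟨c, ?_⟩
    rw [eq_top_iff]
    intro x _
    rw [hmem]
    intro i
    apply (hM i).mono (hc i)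
    rw [ha]
    exact (hρ i).mem x
  · exact fun _ => le_top
  · intro a x hx
    rw [hmem] at hx ⊢
    intro i
    rw [(hρ i).monodromy]
    exact (hM i).map a _ (hx i)
  · intro a x hx hx'
    rw [hmem] at hx hx' ⊢
    intro i
    refine (hM i).inj a _ (hx i) ?_
    rw [← hpow]
    exact hx' i
  · intro a y hy
    rw [hmem] at hy
    choose x hx hxy using fun i => (hM i).surj a (ρ i y) (hy i)
    obtain ⟨z, hz⟩ := hsurj x fun i => (hM i).le _ (hx i)
    refine ⟨z, ?_, ?_⟩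
    · rw [hmem]
      intro i
      rw [hz]
      exact hx i
    · rw [hmem]
      intro i
      rw [map_sub, hpow, hz]
      exact hxy i
  · intro s α x hx hx' hFx
    rw [hmem] at hx hx' hFx
    obtain ⟨i, hi⟩ := not_forall.1 hx'
    have h1 := hFx i
    rw [map_sub, map_smul, (hρ i).frob] at h1
    have h2 : (T.H (Y i)).F (ρ i x) - ((q : Ω) ^ (-k i) * α) • ρ i x ∈ M i (s - 1) := by
      have h3 := Submodule.smul_mem (M i (s - 1)) ((q : Ω) ^ (-k i)) h1
      rwa [smul_sub, smul_smul, smul_smul, ← zpow_add₀ hq0, neg_add_cancel, zpow_zero,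
        one_smul] at h3
    have h3 := (hMα i s _ _ (hx i) hi h2).twist (by omega : q ≠ 0) (k i)
    rw [← mul_assoc, ← zpow_add₀ hq0, add_neg_cancel, zpow_zero, one_mul] at h3
    rwa [show (j i : ℤ) + s + 2 * k i = w' + s by rw [← hjk i]; ring] at h3

lemma IsMWHomology.homologyOfPure {T : Theory.{u, v, w} K Ω} (hT : ∀ X, (T.H X).IsCoh q)
    (hq : 0 < q) {w' : ℤ} {D : FN.{v, w} Ω} (hD : IsMWHomology T q w' D) :
    D.IsHomologyOfPure q w' := by
  obtain ⟨P, Q, R, f, g, ⟨hP, hQ, hR, hf, hg, hgf⟩, h⟩ := hD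
  exact ⟨P, Q, R, f, g, ⟨hP.isRep hT hq, hP.pure hq⟩, ⟨hQ.isRep hT hq, hQ.pure hq⟩,
    ⟨hR.isRep hT hq, hR.pure hq⟩, hf, hg, hgf, h⟩

/-- The purity of `H^m` in terms of the module. -/
lemma IsHm.mwPure_iff {P : FN.{v, w} Ω} {R : Coh.{v, w} Ω} {m : ℕ} (h : IsHm P R m) :
    R.MWPure q m ↔ P.Pure q m := by
  obtain ⟨e, he, hr, hF, hN⟩ := h
  have hpow : ∀ (n : ℕ) x, e ((P.N ^ n) x) = (R.N ^ n) (e x) := by
    intro n
    induction n with
    | zero => intro x; rfl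
    | succ n ih =>
      intro x
      rw [pow_succ', pow_succ', Module.End.mul_apply, Module.End.mul_apply, hN, ih]
  constructor
  · rintro ⟨M, hM, hα⟩
    refine ⟨fun s => (M s).comap e, ⟨?_, ?_, ?_, fun _ => le_top, ?_, ?_, ?_⟩, ?_⟩
    · intro s t hst
      exact Submodule.comap_mono (hM.mono hst)
    · obtain ⟨a, ha⟩ := hM.bot
      refine ⟨a, ?_⟩
      rw [ha, Submodule.comap_bot, LinearMap.ker_eq_bot.2 he]
    · obtain ⟨a, ha⟩ := hM.top
      refine ⟨a, ?_⟩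
      rw [ha, ← hr, eq_top_iff]
      intro x _
      exact ⟨x, rfl⟩
    · intro a x hx
      have := hM.map a _ hx
      rwa [← hN] at this
    · intro a x hx hx'
      refine hM.inj a _ hx ?_
      rw [← hpow]
      exact hx'
    · intro a y hy
      obtain ⟨x, hx, hxy⟩ := hM.surj a _ hy
      have h1 : x ∈ LinearMap.range e := by rw [hr]; exact hM.le _ hx
      obtain ⟨z, rfl⟩ := h1
      refine ⟨z, hx, ?_⟩
      change e (y - (P.N ^ a) z) ∈ M (-(a : ℤ) - 1)
      rw [map_sub, hpow]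
      exact hxy
    · intro s α x hx hx' hFx
      refine hα s α (e x) hx hx' ?_
      have h1 : e (P.F x - α • x) ∈ M (s - 1) := hFx
      rwa [map_sub, map_smul, hF] at h1
  · rintro ⟨M, hM, hα⟩
    have hinj : ∀ (s : ℤ) (x : P.V), e x ∈ (M s).map e ↔ x ∈ M s := by
      intro s x
      constructor
      · rintro ⟨y, hy, hyx⟩
        rw [← he hyx]
        exact hy
      · exact fun hx => ⟨x, hx, rfl⟩
    refine ⟨fun s => (M s).map e, ⟨?_, ?_, ?_, ?_, ?_, ?_, ?_⟩, ?_⟩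
    · intro s t hst
      exact Submodule.map_mono (hM.mono hst)
    · obtain ⟨a, ha⟩ := hM.bot
      exact ⟨a, by rw [ha, Submodule.map_bot]⟩
    · obtain ⟨a, ha⟩ := hM.top
      refine ⟨a, ?_⟩
      rw [ha, Submodule.map_top, hr]
    · intro a
      rw [← hr]
      rintro _ ⟨x, -, rfl⟩
      exact ⟨x, rfl⟩
    · rintro a _ ⟨x, hx, rfl⟩
      exact ⟨P.N x, hM.map a _ hx, hN x⟩
    · rintro a _ ⟨x, hx, rfl⟩ hx'
      rw [← hpow, hinj] at hx'
      exact ⟨x, hM.inj a _ hx hx', rfl⟩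
    · rintro a _ ⟨y, hy, rfl⟩
      obtain ⟨x, hx, hxy⟩ := hM.surj a _ hy
      refine ⟨e x, ⟨x, hx, rfl⟩, ?_⟩
      rw [← hpow, ← map_sub]
      exact ⟨_, hxy, rfl⟩
    · rintro s α _ ⟨x, hx, rfl⟩ hx' hFx
      rw [← hF, ← map_smul, ← map_sub, hinj] at hFx
      rw [hinj] at hx'
      exact hα s α x hx hx' hFx

end Pool.Agent.K7.H9.ND
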