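import Pool.Agent.K7.H9.ND.Defs

/-!
# Degenerating families over a local field: geometric definitions
-/

set_option autoImplicit false

open Module

universe u v w

namespace Pool.Agent.K7.H9.ND

open Pool.Agent.H914 Pool.Agent.Y163.MW Pool.Agent.Y143

variable {K : Type u} [Field K] {Ω : Type w} [Field Ω]

/-- `ρ` is a map from `P` to the Tate twist `H^j(-k)` of the part of degree `j` of `R`. -/
structure IsTwistHom (q : ℕ) (P : FN.{v, w} Ω) (R : Coh.{v, w} Ω) (j : ℕ) (k : ℤ)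
    (ρ : P.V →ₗ[Ω] R.V) : Prop where
  mem : ∀ x, ρ x ∈ R.gr j
  frob : ∀ x, ρ (P.F x) = (q : Ω) ^ k • R.F (ρ x)
  monodromy : ∀ x, ρ (P.N x) = R.N (ρ x)

/-- `P`, with its operators, is `H^m` of the variety with the cohomology `R`. -/
def IsHm (P : FN.{v, w} Ω) (R : Coh.{v, w} Ω) (m : ℕ) : Prop :=
  ∃ e : P.V →ₗ[Ω] R.V, Function.Injective e ∧ LinearMap.range e = R.gr m ∧
    (∀ x, e (P.F x) = R.F (e x)) ∧ ∀ x, e (P.N x) = R.N (e x)

/-- The maps `ρ i` present `P` as the direct sum of the Tate twists `H^(j i)(-k i)` of the parts of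
degree `j i` of the `R i`. -/
structure IsSum (q : ℕ) (P : FN.{v, w} Ω) {r : ℕ} (R : Fin r → Coh.{v, w} Ω) (j : Fin r → ℕ)
    (k : Fin r → ℤ) (ρ : ∀ i, P.V →ₗ[Ω] (R i).V) : Prop where
  hom : ∀ i, IsTwistHom q P (R i) (j i) (k i) (ρ i)
  injective : ∀ x, (∀ i, ρ i x = 0) → x = 0
  surjective : ∀ y : ∀ i, (R i).V, (∀ i, y i ∈ (R i).gr (j i)) → ∃ x, ∀ i, ρ i x = y i

variable [CharZero Ω]

/-- `P` is a finite direct sum of Tate twists `H^j(Y)(-k)`, `j + 2 k = w`, where the `Y` are smooth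
proper varieties over `K` for which the weight-monodromy conjecture holds in degree `j`. -/
def IsMWSum (T : Theory.{u, v, w} K Ω) (q : ℕ) (w : ℤ) (P : FN.{v, w} Ω) : Prop :=
  ∃ (r : ℕ) (Y : Fin r → SmVar.{u} K) (j : Fin r → ℕ) (k : Fin r → ℤ)
    (ρ : ∀ i, P.V →ₗ[Ω] (T.H (Y i)).V),
    (∀ i, (j i : ℤ) + 2 * k i = w) ∧ (∀ i, (T.H (Y i)).MWPure q (j i)) ∧
    IsSum q P (fun i => T.H (Y i)) j k ρ

/-- `P → Q → R` is a complex of such direct sums. -/
structure IsMWComplex (T : Theory.{u, v, w} K Ω) (q : ℕ) (w : ℤ) (P Q R : FN.{v, w} Ω)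
    (f : P.V →ₗ[Ω] Q.V) (g : Q.V →ₗ[Ω] R.V) : Prop where
  left : IsMWSum T q w P
  mid : IsMWSum T q w Q
  right : IsMWSum T q w R
  hom : P.IsHom Q f
  hom' : Q.IsHom R g
  comp : ∀ x, g (f x) = 0

/-- `D` is the homology at `Q` of a complex `P → Q → R` of such direct sums. -/
def IsMWHomology (T : Theory.{u, v, w} K Ω) (q : ℕ) (w : ℤ) (D : FN.{v, w} Ω) : Prop :=
  ∃ (P Q R : FN.{v, w} Ω) (f : P.V →ₗ[Ω] Q.V) (g : Q.V →ₗ[Ω] R.V),
    IsMWComplex T q w P Q R f g ∧ Q.IsSubquotient (LinearMap.ker g) (LinearMap.range f) D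

/-- The weight spectral sequence of the degenerate fibre, and the weight-monodromy conjecture for
its strata: for all `a` the graded piece `gr_a` of the monodromy filtration of `N₂` is the homology
of a complex of sums of Tate twists `H^j(Y)(-k)`, `j + 2 k = m + a`, where the weight-monodromy
conjecture holds for `Y` in degree `j`. -/
def Limit.HasMWStrata (L : Limit.{v, w} Ω) (T : Theory.{u, v, w} K Ω) (q m : ℕ) : Prop :=
  ∃ M : ℤ → Submodule Ω L.V, IsMonodromyFiltrationOn ⊤ L.N₂ M ∧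
    ∀ a : ℤ, ∃ D : FN.{v, w} Ω, IsMWHomology T q (m + a) D ∧
      L.arith.IsSubquotient (M a) (M (a - 1)) D

end Pool.Agent.K7.H9.ND
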