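import Pool.Agent.K7.H9.ND.Rep

/-!
# The homology of a complex of pure modules is pure
-/

set_option autoImplicit false

open Module

universe u v w

namespace Pool.Agent.K7.H9.ND

open Pool.Agent.Y163.MW Pool.Agent.Y143 Pool.Agent.Y136.UB Pool.Agent.Y163.MW.Coh

variable {Ω : Type w} [Field Ω] [CharZero Ω] {q : ℕ}

section op

variable {V V' : Type v} [AddCommGroup V] [Module Ω V] [AddCommGroup V'] [Module Ω V']
  {F : Module.End Ω V}

lemma hasWt_restrict (hF : HasWt F q) {S : Submodule Ω V} (hS : ∀ x ∈ S, F x ∈ S) :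
    HasWt (F.restrict hS) q := by
  intro α y hy0 hy
  refine hF α y (fun h => hy0 (Subtype.ext h)) ?_
  exact congrArg Subtype.val hy

lemma restrict_wtp [IsAlgClosed Ω] [Module.Finite Ω V] (hF : HasWt F q) (hq : 1 < q)
    {S : Submodule Ω V} (hS : ∀ x ∈ S, F x ∈ S) {i : ℤ} {x : S} (hx : (x : V) ∈ wtp F q i) :
    x ∈ wtp (F.restrict hS) q i := by
  classical
  have h2 : (x : V) ∈ wtp F q i := hx
  let FS : Module.End Ω S := F.restrict hS
  have hFS : HasWt FS q := hasWt_restrict hF hS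
  -- decompose `x` in `S`
  have h5 : x ∈ ⨆ w, wtp FS q w := by rw [iSup_wtp hFS]; trivial
  rw [Submodule.mem_iSup_iff_exists_finsupp] at h5
  obtain ⟨g, hg, hgs⟩ := h5
  have hgV : ∀ j, ((g j : S) : V) ∈ wtp F q j := fun j =>
    map_wtp0 (by omega) (φ := S.subtype) (F := FS) (F' := F) (fun _ => rfl) (hg j)
  have hind := indep_wtp hq hF
  rw [iSupIndep_iff_finsetSum_eq_zero_imp_eq_zero] at hind
  have h6 : ∑ j ∈ insert i g.support, (((g j : S) : V) - if j = i then (x : V) else 0) = 0 := by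
    rw [Finset.sum_sub_distrib, Finset.sum_ite_eq' _ _ _, if_pos (Finset.mem_insert_self _ _),
      sub_eq_zero]
    have h7 : (∑ j ∈ insert i g.support, ((g j : S) : V)) = ((g.sum fun _ x => x : S) : V) := by
      rw [Finsupp.sum, Submodule.coe_sum]
      refine (Finset.sum_subset (Finset.subset_insert _ _) fun j _ hj => ?_).symm
      rw [Finsupp.notMem_support_iff.1 hj]
      rfl
    rw [h7, hgs]
  have h8 := hind _ _ (fun j hj => by
    refine Submodule.sub_mem _ (hgV j) ?_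
    split_ifs with h
    · rw [h]; exact h2
    · exact Submodule.zero_mem _) h6 i (Finset.mem_insert_self _ _)
  rw [if_pos rfl, sub_eq_zero] at h8
  have h9 : x = g i := Subtype.ext h8.symm
  rw [h9]
  exact hg i

/-- Homogeneous elements of the image of a map have homogeneous preimages. -/
lemma lift_map [IsAlgClosed Ω] [Module.Finite Ω V] (hF : HasWt F q) (hq : 1 < q)
    {F' : Module.End Ω V'} (hF' : HasWt F' q) {f : V →ₗ[Ω] V'}
    (hf : ∀ x, f (F x) = F' (f x)) {w : ℤ} {x : V} (hx : f x ∈ wtp F' q w) :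
    ∃ y ∈ wtp F q w, f y = f x := by
  classical
  have h5 : x ∈ ⨆ w, wtp F q w := by rw [iSup_wtp hF]; trivial
  rw [Submodule.mem_iSup_iff_exists_finsupp] at h5
  obtain ⟨g, hg, hgs⟩ := h5
  have hind := indep_wtp hq hF'
  rw [iSupIndep_iff_finsetSum_eq_zero_imp_eq_zero] at hind
  refine ⟨g w, hg w, ?_⟩
  have h6 : ∑ j ∈ insert w g.support, (f (g j) - if j = w then f x else 0) = 0 := by
    rw [Finset.sum_sub_distrib, Finset.sum_ite_eq' _ _ _, if_pos (Finset.mem_insert_self _ _),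
      sub_eq_zero, ← map_sum]
    congr 1
    rw [← hgs, Finsupp.sum]
    refine (Finset.sum_subset (Finset.subset_insert _ _) fun j _ hj => ?_).symm
    exact Finsupp.notMem_support_iff.1 hj
  have h8 := hind _ _ (fun j hj => by
    refine Submodule.sub_mem _ (map_wtp0 (by omega) hf (hg j)) ?_
    split_ifs with h
    · rw [h]; exact hx
    · exact Submodule.zero_mem _) h6 w (Finset.mem_insert_self _ _)
  rw [if_pos rfl, sub_eq_zero] at h8
  exact h8

/-- The eigenvalues on a subquotient. -/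
lemma hasWt_quot [Module.Finite Ω V] {F' : Module.End Ω V'} (hF : HasWt F q)
    {S S' : Submodule Ω V} (hS' : ∀ x ∈ S', F x ∈ S') (hle : S' ≤ S)
    {π : S →ₗ[Ω] V'} (hπ : Function.Surjective π) (hker : ∀ x : S, π x = 0 ↔ (x : V) ∈ S')
    (hS : ∀ x ∈ S, F x ∈ S)
    (hπF : ∀ x y : S, (y : V) = F x → π y = F' (π x)) : HasWt F' q := by
  intro α z hz0 hz
  by_contra hno
  -- `F - α` is injective
  have hinj : ∀ x : V, F x = α • x → x = 0 := by
    intro x hx
    by_contra h0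
    exact hno (hF α x h0 hx)
  obtain ⟨x, rfl⟩ := hπ z
  let G : Module.End Ω S' := (F.restrict hS') - α • LinearMap.id
  have hG : Function.Injective G := by
    rw [← LinearMap.ker_eq_bot, LinearMap.ker_eq_bot']
    intro y hy
    apply Subtype.ext
    refine hinj y ?_
    have := congrArg Subtype.val hy
    exact sub_eq_zero.1 this
  have hGs : Function.Surjective G := LinearMap.surjective_of_injective hG
  have h1 : F x - α • (x : V) ∈ S' := by
    have h2 : π (⟨F x, hS _ x.2⟩ - α • x) = 0 := by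
      rw [map_sub, map_smul, hπF x ⟨F x, hS _ x.2⟩ rfl, hz, sub_self]
    exact (hker _).1 h2
  obtain ⟨y, hy⟩ := hGs ⟨_, h1⟩
  have h3 : F y - α • (y : V) = F x - α • (x : V) := congrArg Subtype.val hy
  have h4 : (x : V) - y = 0 := by
    refine hinj _ ?_
    rw [map_sub, smul_sub]
    have := h3
    rw [sub_eq_sub_iff_sub_eq_sub] at this
    rw [sub_eq_sub_iff_sub_eq_sub]
    have h5 : F x = F y - α • (y : V) + α • (x : V) := by rw [h3]; abel
    rw [h5]; abel
  refine hz0 ?_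
  rw [hker, sub_eq_zero.1 h4]
  exact y.2

end op

namespace FN

variable [IsAlgClosed Ω] {P Q R D : FN.{v, w} Ω}

lemma pow_hom {f : P.V →ₗ[Ω] Q.V} (hf : ∀ x, f (P.N x) = Q.N (f x)) (k : ℕ) (x : P.V) :
    f ((P.N ^ k) x) = (Q.N ^ k) (f x) := by
  induction k generalizing x with
  | zero => rfl
  | succ k ih => rw [pow_succ', pow_succ', Module.End.mul_apply, Module.End.mul_apply, hf, ih]

lemma pow_wtp (hq : 0 < q) (hR : R.IsRep q) {w : ℤ} {x : R.V} (hx : x ∈ wtp R.F q w) (k : ℕ) :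
    (R.N ^ k) x ∈ wtp R.F q (w - 2 * k) := by
  induction k with
  | zero => simpa using hx
  | succ k ih =>
    rw [pow_succ', Module.End.mul_apply]
    have := N_wtp hq hR.N_F ih
    rwa [show w - 2 * (k : ℤ) - 2 = w - 2 * ((k + 1 : ℕ) : ℤ) by push_cast; ring] at this

variable {S S' : Submodule Ω Q.V}

/-- The map from the subspace. -/
lemma IsSubquotient.elim (h : Q.IsSubquotient S S' D) :
    ∃ π : S →ₗ[Ω] D.V, Function.Surjective π ∧ (∀ x : S, π x = 0 ↔ (x : Q.V) ∈ S') ∧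
      (∀ x y : S, (y : Q.V) = Q.F x → π y = D.F (π x)) ∧
      ∀ x y : S, (y : Q.V) = Q.N x → π y = D.N (π x) := by
  obtain ⟨π, hπ⟩ := h
  refine ⟨π.comp S.subtype, fun z => ?_, fun x => hπ.kernel x x.2, fun x y h => ?_,
    fun x y h => ?_⟩
  · obtain ⟨x, hx, hz⟩ := hπ.surjective z
    exact ⟨⟨x, hx⟩, hz⟩
  · change π y = D.F (π x)
    rw [h, hπ.frob x x.2]
  · change π y = D.N (π x)
    rw [h, hπ.monodromy x x.2]

/-- A subquotient of a module is a module. -/
lemma subquot_rep (hQ : Q.IsRep q) (hle : S' ≤ S) (hS : ∀ x ∈ S, Q.F x ∈ S)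
    (hS' : ∀ x ∈ S', Q.F x ∈ S') (hSN : ∀ x ∈ S, Q.N x ∈ S)
    (h : Q.IsSubquotient S S' D) : D.IsRep q := by
  have := hQ.finite
  obtain ⟨π, hπ, hker, hπF, hπN⟩ := h.elim
  refine ⟨Module.Finite.of_surjective π hπ, ?_, ?_⟩
  · intro z
    obtain ⟨x, rfl⟩ := hπ z
    have e1 := hπF x ⟨_, hS _ x.2⟩ rfl
    have e2 := hπN ⟨_, hS _ x.2⟩ ⟨_, hSN _ (hS _ x.2)⟩ rfl
    have e3 := hπN x ⟨_, hSN _ x.2⟩ rfl
    have e4 := hπF ⟨_, hSN _ x.2⟩ ⟨_, hS _ (hSN _ x.2)⟩ rfl
    rw [← e1, ← e2, ← e3, ← e4, ← map_smul]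
    congr 1
    apply Subtype.ext
    exact hQ.N_F x
  · exact hasWt_quot hQ.weil hS' hle hπ hker hS hπF

/-- The homology of a complex of pure modules is a module. -/
lemma homology_rep {w : ℤ} (hD : D.IsHomologyOfPure q w) : D.IsRep q := by
  obtain ⟨P, Q, R, f, g, hP, hQ, hR, hf, hg, hgf, h⟩ := hD
  refine subquot_rep hQ.1 ?_ ?_ ?_ ?_ h
  · rintro x ⟨y, rfl⟩
    exact hgf y
  · intro x hx
    rw [LinearMap.mem_ker] at hx ⊢
    rw [hg.1, hx, map_zero]
  · rintro x ⟨y, rfl⟩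
    exact ⟨P.F y, hf.1 y⟩
  · intro x hx
    rw [LinearMap.mem_ker] at hx ⊢
    rw [hg.2, hx, map_zero]

/-- The homology of a complex of pure modules is pure. -/
lemma homology_pure (hq : 1 < q) {w : ℤ} (hD : D.IsHomologyOfPure q w) :
    Centred (fun c => wtp D.F q (w + c)) D.N := by
  have hDr := homology_rep hD
  obtain ⟨P, Q, R, f, g, hP, hQ, hR, hf, hg, hgf, hsub⟩ := hD
  obtain ⟨π, hπ, hker, hπF, hπN⟩ := hsub.elim
  have := hP.1.finite
  have := hQ.1.finite
  have := hR.1.finite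
  have cP := (pure_iff hq hP.1 w).1 hP.2
  have cQ := (pure_iff hq hQ.1 w).1 hQ.2
  have cR := (pure_iff hq hR.1 w).1 hR.2
  have hFk : ∀ x ∈ LinearMap.ker g, Q.F x ∈ LinearMap.ker g := by
    intro x hx
    rw [LinearMap.mem_ker] at hx ⊢
    rw [hg.1, hx, map_zero]
  have hNk : ∀ x ∈ LinearMap.ker g, Q.N x ∈ LinearMap.ker g := by
    intro x hx
    rw [LinearMap.mem_ker] at hx ⊢
    rw [hg.2, hx, map_zero]
  have hNk' : ∀ (k : ℕ), ∀ x ∈ LinearMap.ker g, (Q.N ^ k) x ∈ LinearMap.ker g := by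
    intro k
    induction k with
    | zero => exact fun x hx => hx
    | succ k ih =>
      intro x hx
      rw [pow_succ', Module.End.mul_apply]
      exact hNk _ (ih x hx)
  have hπk : ∀ (k : ℕ) (x y : LinearMap.ker g), (y : Q.V) = (Q.N ^ k) x → π y = (D.N ^ k) (π x) := by
    intro k
    induction k with
    | zero =>
      intro x y h
      have : y = x := Subtype.ext h
      rw [this]
      rfl
    | succ k ih =>
      intro x y h
      rw [pow_succ', Module.End.mul_apply] at h ⊢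
      rw [← ih x ⟨_, hNk' k x x.2⟩ rfl]
      exact hπN _ y h
  intro a
  constructor
  · intro z hz h0
    obtain ⟨x, hx, rfl⟩ := lift_wtp hQ.1.weil hq hDr.weil hFk hπ hπF hz
    rw [← hπk a x ⟨_, hNk' a x x.2⟩ rfl, hker] at h0
    obtain ⟨y', hy'⟩ := h0
    have hy' : f y' = (Q.N ^ a) x := hy'
    have h1 : f y' ∈ wtp Q.F q (w + -(a : ℤ)) := by
      rw [hy']
      have := pow_wtp (by omega) hQ.1 hx a
      rwa [show w + (a : ℤ) - 2 * a = w + -(a : ℤ) by ring] at this
    obtain ⟨y'', hy'', he⟩ := lift_map hP.1.weil hq hQ.1.weil hf.1 h1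
    obtain ⟨y, hy, hye⟩ := (cP a).2 y'' hy''
    have h2 : (x : Q.V) - f y = 0 := by
      refine (cQ a).1 _ (Submodule.sub_mem _ hx (map_wtp0 (by omega) hf.1 hy)) ?_
      rw [map_sub, ← pow_hom hf.2, hye, he, hy', sub_self]
    rw [hker]
    exact ⟨y, (sub_eq_zero.1 h2).symm⟩
  · intro z hz
    obtain ⟨x, hx, rfl⟩ := lift_wtp hQ.1.weil hq hDr.weil hFk hπ hπF hz
    obtain ⟨y, hy, hye⟩ := (cQ a).2 (x : Q.V) hx
    have h3 : g y = 0 := by
      refine (cR a).1 _ (map_wtp0 (by omega) hg.1 hy) ?_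
      rw [← pow_hom hg.2, hye]
      exact x.2
    have hyk : y ∈ LinearMap.ker g := h3
    refine ⟨π ⟨y, hyk⟩, ?_, (hπk a ⟨y, hyk⟩ x hye.symm).symm⟩
    have h4 := restrict_wtp hQ.1.weil hq hFk (x := ⟨y, hyk⟩) hy
    exact map_wtp0 (by omega) (φ := π) (F := Q.F.restrict hFk) (F' := D.F)
      (fun x => hπF x _ rfl) h4

end FN

end Pool.Agent.K7.H9.ND
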