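import Pool.Agent.K7.H9.ND.MultiDefs
import Pool.Agent.K7.H9.ND.Geo

/-!
# Families over a product of punctured discs
-/

set_option autoImplicit false

open Module

universe u v w

namespace Pool.Agent.K7.H9.ND

open Pool.Agent.H914 Pool.Agent.Y163.MW Pool.Agent.Y143

variable {Ω : Type w} [Field Ω] [CharZero Ω] [IsAlgClosed Ω] {q n : ℕ}
  {L : MultiLimit.{v, w} Ω n}

lemma internal_wtp {V : Type v} [AddCommGroup V] [Module Ω V] [Module.Finite Ω V]
    {F : Module.End Ω V} (hq : 1 < q) (hF : HasWt F q) (m : ℤ) :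
    DirectSum.IsInternal fun c : ℤ => wtp F q (m + c) := by
  rw [DirectSum.isInternal_submodule_iff_iSupIndep_and_iSup_eq_top]
  refine ⟨(indep_wtp hq hF).comp (f := fun c : ℤ => m + c) (fun a b h => ?_), ?_⟩
  · have h' : m + a = m + b := h
    omega
  · rw [eq_top_iff, ← iSup_wtp (F := F) hF]
    refine iSup_le fun c => ?_
    have := le_iSup (fun c => wtp F q (m + c)) (c - m)
    simpa using this

lemma MultiLimit.fibre_rep (hL : L.IsLimit q) (c : Fin n → Ω) : (L.fibre c).IsRep q := by
  refine ⟨hL.finite, ?_, hL.weil⟩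
  have key : ∀ x : L.V, (L.N₀ + ∑ i, c i • L.N i) (L.F x) =
      (q : Ω) • L.F ((L.N₀ + ∑ i, c i • L.N i) x) := by
    intro x
    simp only [LinearMap.add_apply, LinearMap.sum_apply, LinearMap.smul_apply, map_add, map_sum,
      map_smul, smul_add, Finset.smul_sum]
    rw [hL.N₀_F]
    congr 1
    refine Finset.sum_congr rfl fun i _ => ?_
    rw [hL.N_F, smul_comm]
  exact key

/-- Purity is the nonvanishing of a polynomial. -/
theorem MultiLimit.pol (hq : 1 < q) (hL : L.IsLimit q) (m : ℤ) :
    ∃ p : MvPolynomial (Fin n) Ω, p.totalDegree ≤ L.moment q m ∧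
      ∀ c, (L.fibre c).Pure q m ↔ MvPolynomial.eval c p ≠ 0 := by
  have := hL.finite
  obtain ⟨p, hp, hpc⟩ := pol_centred L.N₀ L.N (fun c : ℤ => wtp L.F q (m + c))
    (internal_wtp hq hL.weil m).submodule_iSupIndep (fun c r x hx => by
      have := N_wtp (by omega) (MultiLimit.fibre_rep hL c).N_F hx
      rw [show m + r - 2 = m + (r - 2) by ring] at this
      exact this)
  refine ⟨p, hp, fun c => ?_⟩
  rw [← hpc, FN.pure_iff hq (MultiLimit.fibre_rep hL c)]
  rfl

/-- **One fibre suffices**. -/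
theorem MultiLimit.few (hq : 1 < q) (hL : L.IsLimit q) (m : ℤ)
    (h : ∃ c : Fin n → Ω, (L.fibre c).Pure q m) (S : Finset ℕ) {P : (Fin n → ℕ) → Prop}
    (hP : ∀ c, P c → ¬ (L.fibre fun i => (c i : Ω)).Pure q m) :
    Nat.card {c : Fin n → S // P fun i => c i} * S.card ≤
      L.moment q m * S.card ^ n := by
  classical
  obtain ⟨p, hp, hpc⟩ := MultiLimit.pol hq hL m
  have hp0 : p ≠ 0 := by
    rintro rfl
    obtain ⟨c, hc⟩ := h
    exact (hpc c).1 hc (map_zero _)
  have hcard : (S.image (Nat.cast : ℕ → Ω)).card = S.card :=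
    Finset.card_image_of_injective _ Nat.cast_injective
  have h1 := schwartz_zippel hp0 hp (S.image (Nat.cast : ℕ → Ω))
  rw [hcard] at h1
  refine le_trans (Nat.mul_le_mul_right _ ?_) h1
  let f : {c : Fin n → S // P fun i => c i} →
      ((Fintype.piFinset fun _ : Fin n => S.image (Nat.cast : ℕ → Ω)).filter
        fun c => MvPolynomial.eval c p = 0) := fun c => ⟨fun i => ((c.1 i : ℕ) : Ω), by
    rw [Finset.mem_filter, Fintype.mem_piFinset]
    refine ⟨fun i => Finset.mem_image_of_mem _ (c.1 i).2, ?_⟩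
    by_contra h0
    exact hP _ c.2 ((hpc _).2 h0)⟩
  have hf : Function.Injective f := by
    intro c c' h
    apply Subtype.ext
    funext i
    apply Subtype.ext
    have h2 := congrFun (congrArg Subtype.val h) i
    exact Nat.cast_injective h2
  have h2 := Nat.card_le_card_of_injective f hf
  rwa [Nat.card_eq_fintype_card (α := ((Fintype.piFinset fun _ : Fin n =>
    S.image (Nat.cast : ℕ → Ω)).filter fun c => MvPolynomial.eval c p = 0)), Fintype.card_coe] at h2

end Pool.Agent.K7.H9.ND
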