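import Pool.Agent.K7.H9.ND.GeoDefs

/-!
# Families over a product of punctured discs over a local field: definitions
-/

set_option autoImplicit false

open Module

universe u v w

namespace Pool.Agent.K7.H9.ND

open Pool.Agent.Y163.MW Pool.Agent.Y143

/-- The limit cohomology (nearby cohomology) in a fixed degree of a family of varieties over a
product of `n` punctured discs over the local field `K`: the operator `F` (a lift of the geometric
Frobenius), the monodromy operator `N₀` of the inertia group of `K` and the monodromy operators
`N i` of the family around the punctures. -/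
structure MultiLimit (Ω : Type w) [Field Ω] (n : ℕ) where
  /-- the vector space -/
  V : Type v
  [addCommGroup : AddCommGroup V]
  [module : Module Ω V]
  /-- the geometric Frobenius -/
  F : Module.End Ω V
  /-- the arithmetic monodromy operator -/
  N₀ : Module.End Ω V
  /-- the geometric monodromy operators -/
  N : Fin n → Module.End Ω V

attribute [instance] MultiLimit.addCommGroup MultiLimit.module

variable {Ω : Type w} [Field Ω] {n : ℕ}

/-- The operators satisfy `N₀ F = q F N₀` and `N i F = q F N i`, and the eigenvalues of `F` are
`q`-Weil numbers of integral weights. -/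
structure MultiLimit.IsLimit [CharZero Ω] (L : MultiLimit.{v, w} Ω n) (q : ℕ) : Prop where
  finite : Module.Finite Ω L.V
  N₀_F : Twisted (q : Ω) L.F L.N₀
  N_F : ∀ i, Twisted (q : Ω) L.F (L.N i)
  weil : ∀ (α : Ω) (x : L.V), x ≠ 0 → L.F x = α • x → ∃ w : ℤ, IsWeilNumber q w α

/-- The cohomology of a fibre over a point with valuations `c`: the monodromy operator is
`N₀ + ∑ c i N i`. -/
def MultiLimit.fibre (L : MultiLimit.{v, w} Ω n) (c : Fin n → Ω) : FN.{v, w} Ω :=
  ⟨L.V, L.F, L.N₀ + ∑ i, c i • L.N i⟩

/-- The sum of the positive excesses `w - m` of the weights `w` of the eigenvalues of `F`. -/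
noncomputable def MultiLimit.moment [CharZero Ω] (L : MultiLimit.{v, w} Ω n) (q : ℕ) (m : ℤ) : ℕ :=
  ∑ᶠ k : ℕ, k * finrank Ω (⨆ (α : Ω) (_ : IsWeilNumber q (m + k) α),
    L.F.maxGenEigenspace α : Submodule Ω L.V)

end Pool.Agent.K7.H9.ND
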