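import Pool.Agent.K7.H9.ND.Hom
import Pool.Agent.K7.H9.ND.Fam

/-!
# Degenerations: the graded part of `N₁` is centred
-/

set_option autoImplicit false

open Module

universe u v w

namespace Pool.Agent.K7.H9.ND

open Pool.Agent.Y163.MW Pool.Agent.Y143

section repr

variable {K : Type u} [Field K] {V : Type v} [AddCommGroup V] [Module K V] {ι : Type}
  (b : Basis ι K V) (w : ι → ℤ)

lemma repr_pr (a : ℤ) (x : V) (i : ι) [Decidable (w i = a)] :
    b.repr (pr b w a x) i = if w i = a then b.repr x i else 0 := by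
  classical
  have h : x ∈ Submodule.span K (Set.range b) := by rw [b.span_eq]; trivial
  induction h using Submodule.span_induction with
  | mem x hx =>
    obtain ⟨j, rfl⟩ := hx
    rw [pr_b]
    by_cases hij : j = i
    · subst hij
      split_ifs with h1
      · rfl
      · simp
    · have e1 : b.repr (b j) i = 0 := by rw [b.repr_self, Finsupp.single_apply, if_neg hij]
      split_ifs
      · rfl
      · exact e1
      · rw [map_zero, Finsupp.zero_apply, e1]
      · rw [map_zero, Finsupp.zero_apply]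
  | zero => simp
  | add x y _ _ h1 h2 =>
    rw [map_add, map_add, Finsupp.add_apply, h1, h2, map_add, Finsupp.add_apply]
    split_ifs <;> simp
  | smul c x _ h1 =>
    rw [map_smul, map_smul, Finsupp.smul_apply, h1, map_smul, Finsupp.smul_apply]
    split_ifs <;> simp

lemma mem_span_iff (s : Set ι) (x : V) :
    x ∈ Submodule.span K (b '' s) ↔ ∀ i, i ∉ s → b.repr x i = 0 := by
  rw [b.mem_span_image]
  constructor
  · intro h i hi
    by_contra h0
    exact hi (h (Finset.mem_coe.2 (Finsupp.mem_support_iff.2 h0)))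
  · intro h i hi
    by_contra h0
    exact Finsupp.mem_support_iff.1 (Finset.mem_coe.1 hi) (h i h0)

lemma mem_wsp {a : ℤ} {x : V} : x ∈ wsp b w a ↔ ∀ i, w i ≠ a → b.repr x i = 0 :=
  mem_span_iff b {i | w i = a} x

/-- The span of the basis vectors of weight at most `a`. -/
def fl (a : ℤ) : Submodule K V := Submodule.span K (b '' {i | w i ≤ a})

lemma mem_fl {a : ℤ} {x : V} : x ∈ fl b w a ↔ ∀ i, a < w i → b.repr x i = 0 := by
  unfold fl
  rw [mem_span_iff b {i | w i ≤ a} x]
  constructor
  · intro h i hi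
    exact h i (by simpa using hi)
  · intro h i hi
    exact h i (by simpa using hi)

variable {b w}

lemma wsp_le_fl {a : ℤ} : wsp b w a ≤ fl b w a := by
  intro x hx
  rw [mem_wsp] at hx
  rw [mem_fl]
  intro i hi
  exact hx i (by omega)

lemma eq_zero_of_fl {a : ℤ} {x : V} (hx : x ∈ wsp b w a) (hx' : x ∈ fl b w (a - 1)) : x = 0 := by
  rw [mem_wsp] at hx
  rw [mem_fl] at hx'
  apply b.repr.injective
  rw [map_zero]
  ext i
  by_cases h : w i = a
  · exact hx' i (by omega)
  · exact hx i h

lemma pr_fl {a : ℤ} {x : V} (hx : x ∈ fl b w a) : x - pr b w a x ∈ fl b w (a - 1) := by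
  classical
  rw [mem_fl] at hx ⊢
  intro i hi
  rw [map_sub, Finsupp.sub_apply, repr_pr]
  split_ifs with h
  · rw [sub_self]
  · rw [sub_zero]
    exact hx i (by omega)

/-- Homogeneous elements for two gradings. -/
lemma wsp_sub {d : ι → ℤ} {a r : ℤ} {x : V} (hx : x ∈ wsp b w a) (hx' : x ∈ wsp b d r) :
    x ∈ wsp b (fun i => d i - w i) (r - a) := by
  rw [mem_wsp] at hx hx' ⊢
  intro i hi
  by_cases h : w i = a
  · exact hx' i (fun h' => hi (by simp only [h, h']))
  · exact hx i h

lemma pr_sub {d : ι → ℤ} {a k : ℤ} {x : V} (hx : x ∈ wsp b (fun i => d i - w i) k) :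
    pr b w a x ∈ wsp b d (a + k) := by
  classical
  rw [mem_wsp] at hx ⊢
  intro i hi
  rw [repr_pr]
  split_ifs with h
  · exact hx i (by simp only [ne_eq]; omega)
  · rfl

lemma eq_zero_of_pr {x : V} (h : ∀ a, pr b w a x = 0) : x = 0 := by
  classical
  apply b.repr.injective
  rw [map_zero]
  ext i
  have h1 : b.repr (pr b w (w i) x) i = b.repr 0 i := by rw [h]
  rw [repr_pr, if_pos rfl, map_zero] at h1
  exact h1

lemma part_pr (T : Module.End K V) (a : ℤ) (x : V) :
    pr b w a (part b w T 0 x) = part b w T 0 (pr b w a x) := by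
  classical
  have h : x ∈ Submodule.span K (Set.range b) := by rw [b.span_eq]; trivial
  induction h using Submodule.span_induction with
  | mem x hx =>
    obtain ⟨i, rfl⟩ := hx
    rw [part_b, add_zero, pr_b]
    split_ifs with hi
    · subst hi
      rw [part_b, add_zero]
      exact pr_of_mem b w (pr_mem b w _ _)
    · rw [map_zero]
      exact pr_of_mem_ne b w hi (pr_mem b w _ _)
  | zero => simp only [map_zero]
  | add x y _ _ h1 h2 => rw [map_add, map_add, map_add, map_add, h1, h2]
  | smul c x _ h1 => rw [map_smul, map_smul, map_smul, map_smul, h1]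

lemma part_pow_pr (T : Module.End K V) (a : ℤ) (k : ℕ) (x : V) :
    pr b w a ((part b w T 0 ^ k) x) = (part b w T 0 ^ k) (pr b w a x) := by
  induction k with
  | zero => rfl
  | succ k ih => rw [pow_succ', Module.End.mul_apply, part_pr, ih, Module.End.mul_apply]

lemma part_fl {T : Module.End K V} (hT : ∀ a, ∀ x ∈ fl b w a, T x ∈ fl b w a) {a : ℤ} {x : V}
    (hx : x ∈ fl b w a) : T x - part b w T 0 x ∈ fl b w (a - 1) := by
  have hx' := hx
  unfold fl at hx'
  clear hx
  induction hx' using Submodule.span_induction with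
  | mem x hx =>
    obtain ⟨i, hi, rfl⟩ := hx
    have hi' : w i ≤ a := hi
    rw [part_b, add_zero]
    have h1 : T (b i) ∈ fl b w (w i) :=
      hT _ _ (Submodule.subset_span ⟨i, le_refl (w i), rfl⟩)
    have h2 := pr_fl h1
    rw [mem_fl] at h2 ⊢
    intro j hj
    exact h2 j (by omega)
  | zero => rw [map_zero, map_zero, sub_zero]; exact Submodule.zero_mem _
  | add x y _ _ h1 h2 =>
    rw [map_add, map_add, add_sub_add_comm]
    exact Submodule.add_mem _ h1 h2
  | smul c x _ h1 =>
    rw [map_smul, map_smul, ← smul_sub]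
    exact Submodule.smul_mem _ _ h1

lemma part_stable (T : Module.End K V) {a : ℤ} {x : V} (hx : x ∈ wsp b w a) (k : ℕ) :
    (part b w T 0 ^ k) x ∈ wsp b w a := by
  induction k with
  | zero => exact hx
  | succ k ih =>
    rw [pow_succ', Module.End.mul_apply, part_of_mem b w T 0 ih, add_zero]
    exact pr_mem b w _ _

lemma pow_part_fl {T : Module.End K V} (hT : ∀ a, ∀ x ∈ fl b w a, T x ∈ fl b w a) {a : ℤ} {x : V}
    (hx : x ∈ wsp b w a) (k : ℕ) : (T ^ k) x - (part b w T 0 ^ k) x ∈ fl b w (a - 1) := by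
  induction k with
  | zero =>
    rw [pow_zero, pow_zero, sub_self]
    exact Submodule.zero_mem _
  | succ k ih =>
    rw [pow_succ', pow_succ', Module.End.mul_apply, Module.End.mul_apply]
    have h1 := part_fl hT (wsp_le_fl (part_stable T hx k))
    have h2 := hT _ _ ih
    rw [map_sub] at h2
    have := Submodule.add_mem _ h2 h1
    rwa [sub_add_sub_cancel] at this

end repr

section lim

variable {Ω : Type w} [Field Ω] [CharZero Ω] [IsAlgClosed Ω] {q : ℕ} {L : Limit.{v, w} Ω} {m : ℤ}

lemma Limit.internal (hq : 1 < q) (hL : L.IsLimit q) :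
    DirectSum.IsInternal fun c : ℤ => wtp L.F q (m + c) := by
  have := hL.finite
  rw [DirectSum.isInternal_submodule_iff_iSupIndep_and_iSup_eq_top]
  refine ⟨(indep_wtp hq hL.weil).comp (f := fun c : ℤ => m + c) (fun a b h => ?_), ?_⟩
  · have h' : m + a = m + b := h
    omega
  · rw [eq_top_iff, ← iSup_wtp (F := L.F) hL.weil]
    refine iSup_le fun c => ?_
    have := le_iSup (fun c => wtp L.F q (m + c)) (c - m)
    simpa using this

lemma Limit.subquot {D : FN.{v, w} Ω} {S S' : Submodule Ω L.V}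
    (h : L.arith.IsSubquotient S S' D) :
    ∃ π : S →ₗ[Ω] D.V, Function.Surjective π ∧ (∀ x : S, π x = 0 ↔ (x : L.V) ∈ S') ∧
      (∀ x y : S, (y : L.V) = L.F x → π y = D.F (π x)) ∧
      ∀ x y : S, (y : L.V) = L.N₁ x → π y = D.N (π x) := h.elim

lemma subquot_pow {V V' : Type v} [AddCommGroup V] [Module Ω V] [AddCommGroup V'] [Module Ω V']
    {N : Module.End Ω V} {N' : Module.End Ω V'} {S : Submodule Ω V} {π : S →ₗ[Ω] V'}
    (hSN : ∀ x ∈ S, N x ∈ S)
    (hπN : ∀ x y : S, (y : V) = N x → π y = N' (π x)) (k : ℕ) (x y : S)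
    (h : (y : V) = (N ^ k) x) : π y = (N' ^ k) (π x) := by
  have hSk : ∀ (k : ℕ), ∀ x ∈ S, (N ^ k) x ∈ S := by
    intro k
    induction k with
    | zero => exact fun x hx => hx
    | succ k ih =>
      intro x hx
      rw [pow_succ', Module.End.mul_apply]
      exact hSN _ (ih x hx)
  induction k generalizing y with
  | zero =>
    have : y = x := Subtype.ext h
    rw [this]
    rfl
  | succ k ih =>
    rw [pow_succ', Module.End.mul_apply] at h ⊢
    rw [← ih ⟨_, hSk k x x.2⟩ rfl]
    exact hπN _ y h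

/-- The graded part of `N₁` is centred. -/
theorem centred_part (hq : 1 < q) (hL : L.IsLimit q)
    {M : ℤ → Submodule Ω L.V} {ι : Type} [Fintype ι] (b : Basis ι Ω L.V) (w d : ι → ℤ)
    (hM : ∀ a, M a = fl b w a) (hgr : ∀ r, wtp L.F q (m + r) = wsp b d r)
    (hF : ∀ a, ∀ x ∈ M a, L.F x ∈ M a) (hN : ∀ a, ∀ x ∈ M a, L.N₁ x ∈ M a)
    (hD : ∀ a : ℤ, ∃ D : FN.{v, w} Ω, D.IsHomologyOfPure q (m + a) ∧
      L.arith.IsSubquotient (M a) (M (a - 1)) D) :
    Centred (wsp b fun p => d p - w p) (part b w L.N₁ 0) := by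
  have := hL.finite
  have hN' : ∀ a, ∀ x ∈ fl b w a, L.N₁ x ∈ fl b w a := by
    intro a x hx
    rw [← hM] at hx ⊢
    exact hN a x hx
  have hmem : ∀ (k : ℕ) (a : ℤ), ∀ x ∈ M a, (L.N₁ ^ k) x ∈ M a := by
    intro k
    induction k with
    | zero => exact fun a x hx => hx
    | succ k ih =>
      intro a x hx
      rw [pow_succ', Module.End.mul_apply]
      exact hN a _ (ih a x hx)
  have hwM : ∀ a, ∀ x ∈ wsp b w a, x ∈ M a := by
    intro a x hx
    rw [hM]
    exact wsp_le_fl hx
  intro k
  constructor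
  · intro x hx h0
    refine eq_zero_of_pr (b := b) (w := w) fun c => ?_
    have hxc := pr_mem b w c x
    have h1 : pr b w c x ∈ wtp L.F q (m + (c + k)) := by
      rw [hgr]
      exact pr_sub hx
    have h2 : (part b w L.N₁ 0 ^ k) (pr b w c x) = 0 := by rw [← part_pow_pr, h0, map_zero]
    have h3 := pow_part_fl hN' hxc k
    rw [h2, sub_zero, ← hM] at h3
    obtain ⟨D, hD, hDs⟩ := hD c
    obtain ⟨π, hπ, hker, hπF, hπN⟩ := Limit.subquot hDs
    have hDr := FN.homology_rep hD
    have cD := FN.homology_pure hq hD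
    let y : M c := ⟨pr b w c x, hwM c _ hxc⟩
    have h4 : (D.N ^ k) (π y) = 0 := by
      rw [← subquot_pow (S := M c) (hN c) hπN k y
        ⟨(L.N₁ ^ k) (pr b w c x), hmem k c _ (hwM c _ hxc)⟩ rfl, hker]
      exact h3
    have h5 : π y ∈ wtp D.F q (m + c + k) := by
      have h6 := restrict_wtp hL.weil hq (hF c) (x := y) h1
      rw [show m + (c + k) = m + c + k by ring] at h6
      exact map_wtp0 (by omega) (φ := π) (F := L.F.restrict (hF c)) (F' := D.F)
        (fun x => hπF x _ rfl) h6
    have h6 := (cD k).1 _ h5 h4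
    rw [hker, hM] at h6
    exact eq_zero_of_fl hxc h6
  · intro y hy
    have key : ∀ c : ℤ, ∃ x, x ∈ wsp b w c ∧ x ∈ wsp b (fun p => d p - w p) k ∧
        (part b w L.N₁ 0 ^ k) x = pr b w c y := by
      intro c
      have hyc := pr_mem b w c y
      have h1 : pr b w c y ∈ wtp L.F q (m + (c + -(k : ℤ))) := by
        rw [hgr]
        exact pr_sub hy
      obtain ⟨D, hD, hDs⟩ := hD c
      obtain ⟨π, hπ, hker, hπF, hπN⟩ := Limit.subquot hDs
      have hDr := FN.homology_rep hD
      have cD := FN.homology_pure hq hD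
      let z : M c := ⟨pr b w c y, hwM c _ hyc⟩
      have h5 : π z ∈ wtp D.F q (m + c + -(k : ℤ)) := by
        have h6 := restrict_wtp hL.weil hq (hF c) (x := z) h1
        rw [show m + (c + -(k : ℤ)) = m + c + -(k : ℤ) by ring] at h6
        exact map_wtp0 (by omega) (φ := π) (F := L.F.restrict (hF c)) (F' := D.F)
          (fun x => hπF x _ rfl) h6
      obtain ⟨u, hu, huz⟩ := (cD k).2 _ h5
      obtain ⟨x, hx, rfl⟩ := lift_wtp hL.weil hq hDr.weil (hF c) hπ hπF hu
      refine ⟨pr b w c x, pr_mem b w c _, ?_, ?_⟩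
      · have h7 : pr b w c (x : L.V) ∈ wtp L.F q (m + (c + k)) := by
          rw [hgr]
          have h8 : (x : L.V) ∈ wtp L.F q (m + (c + k)) := by rwa [← add_assoc]
          exact pr_gr (d := d) (gr := wsp b d) (fun r => rfl) c (c + (k : ℤ)) (by rwa [← hgr])
        rw [hgr] at h7
        have h8 := wsp_sub (pr_mem b w c (x : L.V)) h7
        rwa [show c + (k : ℤ) - c = k by ring] at h8
      · have hxM : (x : L.V) ∈ fl b w c := by rw [← hM]; exact x.2
        have h7 := pr_fl hxM
        rw [← hM] at h7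
        have h8 : (L.N₁ ^ k) ((x : L.V) - pr b w c (x : L.V)) ∈ fl b w (c - 1) := by
          rw [← hM]
          exact hmem k _ _ h7
        rw [map_sub] at h8
        have h9 := pow_part_fl hN' (pr_mem b w c (x : L.V)) k
        have h10 := Submodule.add_mem _ h8 h9
        rw [sub_add_sub_cancel] at h10
        have h11 : (L.N₁ ^ k) (x : L.V) - pr b w c y ∈ fl b w (c - 1) := by
          rw [← hM]
          have h12 : π (⟨(L.N₁ ^ k) (x : L.V), hmem k c _ x.2⟩ - z) = 0 := by
            rw [map_sub, subquot_pow (S := M c) (hN c) hπN k x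
              ⟨(L.N₁ ^ k) (x : L.V), hmem k c _ x.2⟩ rfl, huz, sub_self]
          exact (hker _).1 h12
        have h12 := Submodule.sub_mem _ h11 h10
        rw [sub_sub_sub_cancel_left] at h12
        have h13 := eq_zero_of_fl (Submodule.sub_mem _ (part_stable L.N₁ (pr_mem b w c (x : L.V)) k)
          hyc) h12
        exact sub_eq_zero.1 h13
    choose x hx1 hx2 hx3 using key
    obtain ⟨B, hB⟩ : ∃ B : ℕ, ∀ p, |w p| ≤ B := by
      refine ⟨∑ p, (w p).natAbs, fun p => ?_⟩
      rw [Int.abs_eq_natAbs]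
      exact_mod_cast Finset.single_le_sum (f := fun p => (w p).natAbs) (fun _ _ => Nat.zero_le _)
        (Finset.mem_univ p)
    refine ⟨∑ j ∈ Finset.range (2 * B + 1), x ((B : ℤ) - j), Submodule.sum_mem _ fun j _ => hx2 _, ?_⟩
    rw [map_sum]
    simp only [hx3]
    refine sum_pr hB (by simp) ?_
    have : (y : L.V) ∈ fl b w B := by
      rw [mem_fl]
      intro i hi
      have := (abs_le.1 (hB i)).2
      omega
    exact this

end lim

end Pool.Agent.K7.H9.ND
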