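import Pool.Agent.Y163.MW.Base
import Mathlib.Algebra.MvPolynomial.SchwartzZippel

/-!
# Families of operators: the condition `Centred` is the nonvanishing of a polynomial
-/

set_option autoImplicit false

open Module

namespace Pool.Agent.K7.H9.ND

open Pool.Agent.Y163.MW

universe u v

variable {K : Type u} [Field K] {V : Type v} [AddCommGroup V] [Module K V] {n : ℕ}

/-- The operator `N₀ + ∑ c_i N_i`. -/
def comb (N₀ : Module.End K V) (N : Fin n → Module.End K V) (c : Fin n → K) : Module.End K V :=
  N₀ + ∑ i, c i • N i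

/-- Polynomial functions of degree at most `d`. -/
def IsPol (d : ℕ) (g : (Fin n → K) → K) : Prop :=
  ∃ p : MvPolynomial (Fin n) K, p.totalDegree ≤ d ∧ ∀ c, g c = MvPolynomial.eval c p

lemma IsPol.const (a : K) (d : ℕ) : IsPol (n := n) d (fun _ => a) :=
  ⟨MvPolynomial.C a, by rw [MvPolynomial.totalDegree_C]; exact Nat.zero_le _,
    fun c => by rw [MvPolynomial.eval_C]⟩

lemma IsPol.mono {d d' : ℕ} (h : d ≤ d') {g : (Fin n → K) → K} (hg : IsPol d g) : IsPol d' g := by
  obtain ⟨p, hp, h2⟩ := hg
  exact ⟨p, hp.trans h, h2⟩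

lemma IsPol.add {d : ℕ} {g g' : (Fin n → K) → K} (hg : IsPol d g) (hg' : IsPol d g') :
    IsPol d (fun c => g c + g' c) := by
  obtain ⟨p, hp, h2⟩ := hg
  obtain ⟨p', hp', h2'⟩ := hg'
  exact ⟨p + p', (MvPolynomial.totalDegree_add _ _).trans (max_le hp hp'),
    fun c => by rw [map_add, ← h2, ← h2']⟩

lemma IsPol.mul {d d' : ℕ} {g g' : (Fin n → K) → K} (hg : IsPol d g) (hg' : IsPol d' g') :
    IsPol (d + d') (fun c => g c * g' c) := by
  obtain ⟨p, hp, h2⟩ := hg
  obtain ⟨p', hp', h2'⟩ := hg'
  exact ⟨p * p', (MvPolynomial.totalDegree_mul _ _).trans (Nat.add_le_add hp hp'),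
    fun c => by rw [map_mul, ← h2, ← h2']⟩

lemma IsPol.coord (i : Fin n) : IsPol (K := K) 1 (fun c => c i) :=
  ⟨MvPolynomial.X i, by rw [MvPolynomial.totalDegree_X], fun c => by rw [MvPolynomial.eval_X]⟩

lemma IsPol.sum {ι : Type*} (s : Finset ι) {d : ℕ} {g : ι → (Fin n → K) → K}
    (hg : ∀ i ∈ s, IsPol d (g i)) : IsPol d (fun c => ∑ i ∈ s, g i c) := by
  classical
  induction s using Finset.induction_on with
  | empty => simpa using IsPol.const (n := n) (0 : K) d
  | insert a s ha ih =>
    simp only [Finset.sum_insert ha]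
    exact (hg a (Finset.mem_insert_self a s)).add
      (ih fun i hi => hg i (Finset.mem_insert_of_mem hi))

lemma IsPol.prod {ι : Type*} (s : Finset ι) {d : ι → ℕ} {g : ι → (Fin n → K) → K}
    (hg : ∀ i ∈ s, IsPol (d i) (g i)) : IsPol (∑ i ∈ s, d i) (fun c => ∏ i ∈ s, g i c) := by
  classical
  induction s using Finset.induction_on with
  | empty => simpa using IsPol.const (n := n) (1 : K) 0
  | insert a s ha ih =>
    simp only [Finset.prod_insert ha, Finset.sum_insert ha]
    exact (hg a (Finset.mem_insert_self a s)).mul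
      (ih fun i hi => hg i (Finset.mem_insert_of_mem hi))

/-- The coefficients of the powers of the operator are polynomials. -/
lemma pol_apply (N₀ : Module.End K V) (N : Fin n → Module.End K V) (φ : V →ₗ[K] K) (k : ℕ) :
    ∀ x : V, IsPol k (fun c => φ ((comb N₀ N c ^ k) x)) := by
  induction k with
  | zero =>
    intro x
    simpa using IsPol.const (n := n) (φ x) 0
  | succ k ih =>
    intro x
    have h1 : (fun c => φ ((comb N₀ N c ^ (k + 1)) x)) = fun c =>
        φ ((comb N₀ N c ^ k) (N₀ x)) + ∑ i, c i * φ ((comb N₀ N c ^ k) (N i x)) := by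
      funext c
      rw [pow_succ, Module.End.mul_apply]
      conv_lhs => rw [show comb N₀ N c x = N₀ x + ∑ i, c i • N i x by
        unfold comb
        rw [LinearMap.add_apply, LinearMap.sum_apply]
        rfl]
      rw [map_add, map_add, map_sum, map_sum]
      congr 1
      refine Finset.sum_congr rfl fun i _ => ?_
      rw [map_smul, map_smul, smul_eq_mul]
    rw [h1]
    refine ((ih (N₀ x)).mono (Nat.le_succ k)).add (IsPol.sum _ fun i _ => ?_)
    have h2 := (IsPol.coord (K := K) i).mul (ih (N i x))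
    rwa [Nat.add_comm 1 k] at h2

lemma pol_det {m k : ℕ} {g : Fin m → Fin m → (Fin n → K) → K} (hg : ∀ i j, IsPol k (g i j)) :
    IsPol (k * m) (fun c => (Matrix.of fun i j => g i j c).det) := by
  have h1 : (fun c => (Matrix.of fun i j => g i j c).det) = fun c =>
      ∑ σ : Equiv.Perm (Fin m), ((Equiv.Perm.sign σ : ℤ) : K) * ∏ i, g (σ i) i c := by
    funext c
    rw [Matrix.det_apply']
    rfl
  rw [h1]
  refine IsPol.sum _ fun σ _ => ?_
  have h2 := (IsPol.const (n := n) ((Equiv.Perm.sign σ : ℤ) : K) 0).mul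
    (IsPol.prod Finset.univ (d := fun _ : Fin m => k) (fun i _ => hg (σ i) i))
  refine h2.mono (le_of_eq ?_)
  rw [Finset.sum_const, Finset.card_univ, Fintype.card_fin, smul_eq_mul]
  ring

/-- `T` induces a bijection from `A` to `B`. -/
def Bij (A B : Submodule K V) (T : Module.End K V) : Prop :=
  (∀ x ∈ A, T x = 0 → x = 0) ∧ ∀ y ∈ B, ∃ x ∈ A, T x = y

lemma Bij.finrank_eq [Module.Finite K V] {A B : Submodule K V} {T : Module.End K V}
    (hT : ∀ x ∈ A, T x ∈ B) (h : Bij A B T) : finrank K A = finrank K B := by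
  let L : A →ₗ[K] B := (T.domRestrict A).codRestrict B fun x => hT x x.2
  refine (LinearEquiv.ofBijective L ⟨?_, ?_⟩).finrank_eq
  · rw [injective_iff_map_eq_zero]
    intro x hx
    exact Subtype.ext (h.1 x x.2 (congrArg Subtype.val hx))
  · intro y
    obtain ⟨x, hx, hxy⟩ := h.2 y y.2
    exact ⟨⟨x, hx⟩, Subtype.ext hxy⟩

/-- Bijectivity of the powers is the nonvanishing of a polynomial. -/
lemma pol_bij [Module.Finite K V] (N₀ : Module.End K V) (N : Fin n → Module.End K V)
    (A B : Submodule K V) (k : ℕ) (h : ∀ c, ∀ x ∈ A, (comb N₀ N c ^ k) x ∈ B) :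
    ∃ p : MvPolynomial (Fin n) K, p.totalDegree ≤ k * finrank K A ∧
      ∀ c, Bij A B (comb N₀ N c ^ k) ↔ MvPolynomial.eval c p ≠ 0 := by
  classical
  by_cases hd : finrank K A = finrank K B
  · let b : Basis (Fin (finrank K A)) K A := Module.finBasis K A
    let b' : Basis (Fin (finrank K A)) K B := (Module.finBasis K B).reindex (finCongr hd.symm)
    choose φ hφ using fun i => LinearMap.exists_extend (b'.coord i)
    obtain ⟨p, hp, hpe⟩ := pol_det (k := k) (g := fun i j c => φ i ((comb N₀ N c ^ k) (b j)))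
      fun i j => pol_apply N₀ N (φ i) k (b j)
    refine ⟨p, hp, fun c => ?_⟩
    rw [← hpe c]
    set M : Matrix (Fin (finrank K A)) (Fin (finrank K A)) K :=
      Matrix.of fun i j => φ i ((comb N₀ N c ^ k) (b j)) with hM
    let T : Module.End K V := comb N₀ N c ^ k
    let L : A →ₗ[K] B := (T.domRestrict A).codRestrict B fun x => h c x x.2
    have hML : M = LinearMap.toMatrix b b' L := by
      ext i j
      rw [LinearMap.toMatrix_apply]
      change φ i ((comb N₀ N c ^ k) (b j)) = b'.coord i (L (b j))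
      rw [← hφ i]
      rfl
    have hinj : (∀ x ∈ A, T x = 0 → x = 0) ↔ M.det ≠ 0 := by
      rw [hML]
      constructor
      · intro h1 h0
        obtain ⟨v, hv0, hv⟩ := Matrix.exists_mulVec_eq_zero_iff.2 h0
        refine hv0 ?_
        have h2 : b'.repr (L (b.equivFun.symm v)) = 0 := by
          ext i
          have h3 := congrFun hv i
          rw [← LinearMap.toMatrix_mulVec_repr b b' L (b.equivFun.symm v)]
          have h4 : ⇑(b.repr (b.equivFun.symm v)) = v := by
            have := b.equivFun.apply_symm_apply v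
            exact this
          rw [h4]
          exact h3
        have h3 : L (b.equivFun.symm v) = 0 := by
          rw [← b'.repr.map_zero] at h2
          exact b'.repr.injective h2
        have h4 : b.equivFun.symm v = 0 :=
          Subtype.ext (h1 _ (b.equivFun.symm v).2 (congrArg Subtype.val h3))
        have h5 := congrArg b.equivFun h4
        rwa [LinearEquiv.apply_symm_apply, map_zero] at h5
      · intro h0 x hx hTx
        have h1 : L ⟨x, hx⟩ = 0 := Subtype.ext hTx
        by_contra hne
        refine h0 (Matrix.exists_mulVec_eq_zero_iff.1 ⟨b.repr ⟨x, hx⟩, ?_, ?_⟩)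
        · intro h2
          have h3 : b.repr ⟨x, hx⟩ = 0 := DFunLike.coe_injective h2
          have h4 : (⟨x, hx⟩ : A) = 0 := by
            rw [← b.repr.map_zero] at h3
            exact b.repr.injective h3
          exact hne (congrArg Subtype.val h4)
        · rw [LinearMap.toMatrix_mulVec_repr, h1, map_zero]
          rfl
    rw [← hinj]
    constructor
    · exact fun h1 => h1.1
    · intro h1
      refine ⟨h1, fun y hy => ?_⟩
      have hLi : Function.Injective L := by
        rw [injective_iff_map_eq_zero]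
        intro x hx
        exact Subtype.ext (h1 x x.2 (congrArg Subtype.val hx))
      have hLs : Function.Surjective L :=
        (LinearMap.injective_iff_surjective_of_finrank_eq_finrank hd).1 hLi
      obtain ⟨x, hx⟩ := hLs ⟨y, hy⟩
      exact ⟨x, x.2, congrArg Subtype.val hx⟩
  · refine ⟨0, by rw [MvPolynomial.totalDegree_zero]; exact Nat.zero_le _, fun c => ?_⟩
    rw [map_zero]
    constructor
    · intro h1
      exact absurd (h1.finrank_eq fun x hx => h c x hx) hd
    · intro h1
      exact absurd rfl h1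

/-- The sum of the `a * dim (gr a)`, `a ≥ 0`. -/
noncomputable def firstMoment (gr : ℤ → Submodule K V) : ℕ := ∑ᶠ a : ℕ, a * finrank K (gr a)

/-- The condition `Centred` is the nonvanishing of a polynomial. -/
theorem pol_centred [Module.Finite K V] (N₀ : Module.End K V) (N : Fin n → Module.End K V)
    (gr : ℤ → Submodule K V) (hgr : iSupIndep gr)
    (h : ∀ c r, ∀ x ∈ gr r, comb N₀ N c x ∈ gr (r - 2)) :
    ∃ p : MvPolynomial (Fin n) K, p.totalDegree ≤ firstMoment gr ∧
      ∀ c, Centred gr (comb N₀ N c) ↔ MvPolynomial.eval c p ≠ 0 := by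
  classical
  have hpow : ∀ c (k : ℕ) (r : ℤ), ∀ x ∈ gr r, (comb N₀ N c ^ k) x ∈ gr (r - 2 * k) := by
    intro c k
    induction k with
    | zero => intro r x hx; simpa using hx
    | succ k ih =>
      intro r x hx
      rw [pow_succ', Module.End.mul_apply]
      have := h c _ _ (ih r x hx)
      rwa [show r - 2 * (k : ℤ) - 2 = r - 2 * ((k + 1 : ℕ) : ℤ) by push_cast; ring] at this
  have hfin : {r : ℤ | gr r ≠ ⊥}.Finite := WellFoundedGT.finite_ne_bot_of_iSupIndep hgr
  choose P hP hPe using fun k : ℕ => pol_bij N₀ N (gr k) (gr (-(k : ℤ))) k fun c x hx => by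
    have := hpow c k k x hx
    rwa [show (k : ℤ) - 2 * k = -(k : ℤ) by ring] at this
  -- the relevant degrees
  have hfin1 : {k : ℕ | gr (k : ℤ) ≠ ⊥}.Finite :=
    hfin.preimage (f := fun k : ℕ => (k : ℤ)) (fun a _ b _ h => by
      have h' : (a : ℤ) = (b : ℤ) := h
      omega)
  have hfin2 : {k : ℕ | gr (-(k : ℤ)) ≠ ⊥}.Finite :=
    hfin.preimage (f := fun k : ℕ => -(k : ℤ)) (fun a _ b _ h => by
      have h' : -(a : ℤ) = -(b : ℤ) := h
      omega)
  set S : Finset ℕ := hfin1.toFinset ∪ hfin2.toFinset with hS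
  refine ⟨∏ k ∈ S, P k, ?_, fun c => ?_⟩
  · refine (MvPolynomial.totalDegree_finset_prod _ _).trans ?_
    refine (Finset.sum_le_sum fun k _ => hP k).trans (le_of_eq ?_)
    unfold firstMoment
    refine (finsum_eq_finsetSum_of_support_subset _ ?_).symm
    intro k hk
    rw [Function.mem_support] at hk
    rw [hS, Finset.coe_union, Set.Finite.coe_toFinset, Set.Finite.coe_toFinset]
    left
    intro h0
    refine hk ?_
    rw [h0, finrank_bot, mul_zero]
  · rw [map_prod, Finset.prod_ne_zero_iff]
    constructor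
    · intro h1 k _
      exact (hPe k c).1 (h1 k)
    · intro h1 k
      by_cases hk : k ∈ S
      · exact (hPe k c).2 (h1 k hk)
      · have h2 : gr (k : ℤ) = ⊥ ∧ gr (-(k : ℤ)) = ⊥ := by
          rw [hS, Finset.mem_union, not_or, Set.Finite.mem_toFinset, Set.Finite.mem_toFinset] at hk
          exact ⟨not_not.1 hk.1, not_not.1 hk.2⟩
        refine ⟨fun x hx _ => ?_, fun y hy => ⟨0, Submodule.zero_mem _, ?_⟩⟩
        · rw [h2.1] at hx
          exact (Submodule.mem_bot K).1 hx
        · rw [h2.2] at hy
          rw [map_zero, (Submodule.mem_bot K).1 hy]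

end Pool.Agent.K7.H9.ND
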