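import Pool.Agent.K7.H9.ND.Defs
import Pool.Agent.Y163.MW.Deg
import Pool.Agent.Y48.MW.G

/-!
# The weight decomposition of a Frobenius-monodromy module
-/

set_option autoImplicit false

open Module

universe u v w

namespace Pool.Agent.K7.H9.ND

open Pool.Agent.Y163.MW Pool.Agent.Y143 Pool.Agent.Y136.UB Pool.Agent.Y163.MW.Coh

variable {Ω : Type w} [Field Ω] [CharZero Ω] {q : ℕ}

section op

variable {V V' : Type v} [AddCommGroup V] [Module Ω V] [AddCommGroup V'] [Module Ω V']

/-- The part of weight `w` for the operator `F`. -/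
def wtp (F : Module.End Ω V) (q : ℕ) (w : ℤ) : Submodule Ω V :=
  ⨆ (α : Ω) (_ : IsWeilNumber q w α), F.maxGenEigenspace α

/-- The eigenvalues are Weil numbers of integral weights. -/
def HasWt (F : Module.End Ω V) (q : ℕ) : Prop :=
  ∀ (α : Ω) (x : V), x ≠ 0 → F x = α • x → ∃ w : ℤ, IsWeilNumber q w α

variable {F : Module.End Ω V}

lemma exists_weil' (hF : HasWt F q) {α : Ω} {x : V} (hx : x ∈ F.maxGenEigenspace α)
    (h0 : x ≠ 0) : ∃ w : ℤ, IsWeilNumber q w α := by
  obtain ⟨y, _, hy0, hFy⟩ := exists_eigen_of_gen (S := ⊤) (F := F) (fun _ _ => trivial) trivial hx h0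
  exact hF α y hy0 hFy

lemma gen_eq_bot (hF : HasWt F q) {α : Ω} (h : ¬ ∃ w : ℤ, IsWeilNumber q w α) :
    F.maxGenEigenspace α = ⊥ := by
  rw [Submodule.eq_bot_iff]
  intro x hx
  by_contra h0
  exact h (exists_weil' hF hx h0)

lemma wtp_eq (hq : 1 < q) (hF : HasWt F q) (w : ℤ) :
    wtp F q w = ⨆ (α : Ω) (_ : wtf q α = w), F.maxGenEigenspace α := by
  apply le_antisymm
  · refine iSup₂_le fun α hα => ?_
    exact le_iSup₂_of_le α (wtf_eq hq hα) le_rfl
  · refine iSup₂_le fun α hα => ?_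
    by_cases h : ∃ w : ℤ, IsWeilNumber q w α
    · obtain ⟨w', hw⟩ := h
      rw [wtf_eq hq hw] at hα
      subst hα
      exact le_iSup₂_of_le α hw le_rfl
    · rw [gen_eq_bot hF h]
      exact bot_le

lemma indep_wtp (hq : 1 < q) (hF : HasWt F q) : iSupIndep (wtp F q) := by
  have h := iSupIndep_fib (Module.End.independent_maxGenEigenspace F) (wtf q)
  have e : wtp F q = fun j : ℤ => ⨆ (α : Ω) (_ : wtf q α = j), F.maxGenEigenspace α := by
    funext j
    exact wtp_eq hq hF j
  rw [e]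
  exact h

lemma iSup_wtp [IsAlgClosed Ω] [Module.Finite Ω V] (hF : HasWt F q) : ⨆ w, wtp F q w = ⊤ := by
  rw [eq_top_iff, ← Module.End.iSup_maxGenEigenspace_eq_top F]
  refine iSup_le fun α => ?_
  by_cases h : ∃ w : ℤ, IsWeilNumber q w α
  · obtain ⟨w, hw⟩ := h
    exact le_iSup_of_le w (le_iSup₂_of_le α hw le_rfl)
  · rw [gen_eq_bot hF h]
    exact bot_le

/-- A map that intertwines `F` and `c F'`, where `c` has weight `2 t`. -/
lemma map_wtp {F' : Module.End Ω V'} (hq : 0 < q) {φ : V →ₗ[Ω] V'} {t : ℤ}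
    (hφ : ∀ x, φ (F x) = (q : Ω) ^ t • F' (φ x)) {w : ℤ} {x : V} (hx : x ∈ wtp F q w) :
    φ x ∈ wtp F' q (w - 2 * t) := by
  have hq0 : (q : Ω) ≠ 0 := Nat.cast_ne_zero.2 (by omega)
  have h : wtp F q w ≤ (wtp F' q (w - 2 * t)).comap φ := by
    refine iSup₂_le fun α hα => ?_
    intro y hy
    have h3 := hα.twist (by omega : q ≠ 0) (-t)
    rw [show w + 2 * (-t) = w - 2 * t by ring] at h3
    refine Submodule.mem_iSup_of_mem _ (Submodule.mem_iSup_of_mem h3 ?_)
    have h4 : y ∈ ((q : Ω) ^ (-t) • F).maxGenEigenspace ((q : Ω) ^ (-t) * α) := by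
      obtain ⟨k, hk⟩ := mem_gen.1 hy
      refine mem_gen.2 ⟨k, ?_⟩
      have e : (q : Ω) ^ (-t) • F - algebraMap Ω (Module.End Ω V) ((q : Ω) ^ (-t) * α) =
          (q : Ω) ^ (-t) • (F - algebraMap Ω (Module.End Ω V) α) := by
        ext z
        simp only [LinearMap.sub_apply, LinearMap.smul_apply, Module.algebraMap_end_apply,
          smul_sub, smul_smul]
      rw [e, smul_pow, LinearMap.smul_apply, hk, smul_zero]
    refine gen_map φ (fun z => ?_) h4
    rw [LinearMap.smul_apply, map_smul, hφ, smul_smul, ← zpow_add₀ hq0, neg_add_cancel, zpow_zero,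
      one_smul]
  exact h hx

lemma map_wtp0 {F' : Module.End Ω V'} (hq : 0 < q) {φ : V →ₗ[Ω] V'}
    (hφ : ∀ x, φ (F x) = F' (φ x)) {w : ℤ} {x : V} (hx : x ∈ wtp F q w) :
    φ x ∈ wtp F' q w := by
  have h := map_wtp hq (φ := φ) (F' := F') (t := 0) (fun x => by rw [hφ, zpow_zero, one_smul]) hx
  rwa [mul_zero, sub_zero] at h

lemma N_wtp {N : Module.End Ω V} (hq : 0 < q) (hN : Twisted (q : Ω) F N) {w : ℤ} {x : V}
    (hx : x ∈ wtp F q w) : N x ∈ wtp F q (w - 2) := by
  have h := map_wtp hq (φ := N) (F' := F) (t := 1) (fun x => by rw [hN, zpow_one]) hx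
  rwa [mul_one] at h

lemma F_wtp (hq : 0 < q) {w : ℤ} {x : V} (hx : x ∈ wtp F q w) : F x ∈ wtp F q w :=
  map_wtp0 hq (φ := F) (fun _ => rfl) hx

lemma eigen_wtp (hq : 1 < q) (hF : HasWt F q) {w : ℤ} {α : Ω} {x : V} (hx : x ∈ wtp F q w)
    (h0 : x ≠ 0) (hFx : F x = α • x) : IsWeilNumber q w α := by
  obtain ⟨w', hw⟩ := hF α x h0 hFx
  have h1 : x ∈ wtp F q w' := by
    refine Submodule.mem_iSup_of_mem α (Submodule.mem_iSup_of_mem hw ?_)
    refine mem_gen.2 ⟨1, ?_⟩
    rw [pow_one, LinearMap.sub_apply, Module.algebraMap_end_apply, hFx, sub_self]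
  have h2 : w = w' := by
    by_contra hne
    have := (indep_wtp hq hF).pairwiseDisjoint hne
    exact h0 (Submodule.disjoint_def.1 this x hx h1)
  rw [h2]
  exact hw

/-- The decomposition of the elements of a stable subspace. -/
lemma stable_decomp [IsAlgClosed Ω] [Module.Finite Ω V] (hF : HasWt F q) (hq : 0 < q)
    {S : Submodule Ω V} (hS : ∀ x ∈ S, F x ∈ S) : S ≤ ⨆ w, S ⊓ wtp F q w := by
  have h1 : S = ⨆ α, S ⊓ F.maxGenEigenspace α := by
    have := Submodule.eq_iSup_inf_genEigenspace (p := S) (f := F) ⊤ hS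
      (Module.End.iSup_maxGenEigenspace_eq_top F)
    exact this
  conv_lhs => rw [h1]
  refine iSup_le fun α => ?_
  by_cases h : ∃ w : ℤ, IsWeilNumber q w α
  · obtain ⟨w, hw⟩ := h
    refine le_iSup_of_le w (le_inf inf_le_left (inf_le_right.trans ?_))
    exact le_iSup₂_of_le α hw le_rfl
  · rw [gen_eq_bot hF h, inf_bot_eq]
    exact bot_le

/-- Lifting of homogeneous elements along a surjective map from a stable subspace. -/
lemma lift_wtp [IsAlgClosed Ω] [Module.Finite Ω V] (hF : HasWt F q) (hq : 1 < q)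
    {F' : Module.End Ω V'} (hF' : HasWt F' q) {S : Submodule Ω V} (hS : ∀ x ∈ S, F x ∈ S)
    {π : S →ₗ[Ω] V'} (hπ : Function.Surjective π)
    (hπF : ∀ x y : S, (y : V) = F x → π y = F' (π x)) {w : ℤ} {z : V'} (hz : z ∈ wtp F' q w) :
    ∃ x : S, (x : V) ∈ wtp F q w ∧ π x = z := by
  classical
  obtain ⟨y, rfl⟩ := hπ z
  -- the restriction of `F` to `S`
  have h1 := stable_decomp hF (by omega) hS y.2
  rw [Submodule.mem_iSup_iff_exists_finsupp] at h1
  obtain ⟨f, hf, hsum⟩ := h1
  have hfS : ∀ i, f i ∈ S := fun i => (Submodule.mem_inf.1 (hf i)).1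
  have hfw : ∀ i, f i ∈ wtp F q i := fun i => (Submodule.mem_inf.1 (hf i)).2
  -- images of homogeneous elements of `S`
  have himg : ∀ (i : ℤ) (x : S), (x : V) ∈ wtp F q i → π x ∈ wtp F' q i := by
    intro i x hx
    have h2 : (x : V) ∈ wtp F q i := hx
    let FS : Module.End Ω S := F.restrict hS
    have h3 : x ∈ wtp FS q i := by
      have h4 : (⟨x, x.2⟩ : S) ∈ (wtp F q i).comap S.subtype := h2
      have hFS : HasWt FS q := by
        intro α y hy0 hy
        refine hF α y (fun h => hy0 (Subtype.ext h)) ?_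
        exact congrArg Subtype.val hy
      -- decompose `x` in `S`
      have h5 : x ∈ ⨆ w, wtp FS q w := by rw [iSup_wtp hFS]; trivial
      rw [Submodule.mem_iSup_iff_exists_finsupp] at h5
      obtain ⟨g, hg, hgs⟩ := h5
      have hgV : ∀ j, ((g j : S) : V) ∈ wtp F q j := fun j =>
        map_wtp0 (by omega) (φ := S.subtype) (F := FS) (F' := F) (fun _ => rfl) (hg j)
      have hind := indep_wtp hq hF
      rw [iSupIndep_iff_finsetSum_eq_zero_imp_eq_zero] at hind
      have h6 : ∑ j ∈ insert i g.support, (((g j : S) : V) - if j = i then (x : V) else 0) = 0 := by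
        rw [Finset.sum_sub_distrib, Finset.sum_ite_eq' _ _ _, if_pos (Finset.mem_insert_self _ _),
          sub_eq_zero]
        have h7 : (∑ j ∈ insert i g.support, ((g j : S) : V)) = ((g.sum fun _ x => x : S) : V) := by
          rw [Finsupp.sum, Submodule.coe_sum]
          refine (Finset.sum_subset (Finset.subset_insert _ _) fun j _ hj => ?_).symm
          rw [Finsupp.notMem_support_iff.1 hj]
          rfl
        rw [h7, hgs]
      have h8 := hind _ _ (fun j hj => by
        refine Submodule.sub_mem _ (hgV j) ?_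
        split_ifs with h
        · rw [h]; exact h2
        · exact Submodule.zero_mem _) h6 i (Finset.mem_insert_self _ _)
      rw [if_pos rfl, sub_eq_zero] at h8
      have h9 : x = g i := Subtype.ext h8.symm
      rw [h9]
      exact hg i
    refine map_wtp0 (by omega) (φ := π) (F := FS) (F' := F') (fun y => ?_) h3
    exact hπF y _ rfl
  have hind' := indep_wtp hq hF'
  rw [iSupIndep_iff_finsetSum_eq_zero_imp_eq_zero] at hind'
  refine ⟨⟨f w, hfS w⟩, hfw w, ?_⟩
  have h6 : ∑ j ∈ insert w f.support, (π ⟨f j, hfS j⟩ - if j = w then π y else 0) = 0 := by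
    rw [Finset.sum_sub_distrib, Finset.sum_ite_eq' _ _ _, if_pos (Finset.mem_insert_self _ _),
      sub_eq_zero, ← map_sum]
    congr 1
    apply Subtype.ext
    rw [Submodule.coe_sum]
    rw [← hsum, Finsupp.sum]
    refine (Finset.sum_subset (Finset.subset_insert _ _) fun j _ hj => ?_).symm
    exact Finsupp.notMem_support_iff.1 hj
  have h8 := hind' _ _ (fun j hj => by
    refine Submodule.sub_mem _ (himg j _ (hfw j)) ?_
    split_ifs with h
    · rw [h]; exact hz
    · exact Submodule.zero_mem _) h6 w (Finset.mem_insert_self _ _)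
  rw [if_pos rfl, sub_eq_zero] at h8
  exact h8

end op

namespace FN

variable [IsAlgClosed Ω] {R : FN.{v, w} Ω}

/-- Purity in terms of the weight decomposition. -/
lemma pure_iff (hq : 1 < q) (hR : R.IsRep q) (w : ℤ) :
    R.Pure q w ↔ Centred (fun c => wtp R.F q (w + c)) R.N := by
  have := hR.finite
  have hF : HasWt R.F q := hR.weil
  refine Pool.Agent.Y48.MW.t_G Ω R.V ⊤ (fun c => wtp R.F q (w + c)) R.F R.N (q : Ω)
    (fun c α => IsWeilNumber q (w + c) α) ?_ ?_ (fun c x hx => F_wtp (by omega) hx)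
    (fun c x hx => ?_) (Nat.cast_ne_zero.2 (by omega)) (fun x _ => hR.N_F x)
    (fun c α x hx h0 hFx => eigen_wtp hq hF hx h0 hFx)
    (fun c c' α h h' => by have := weil_unique hq h h'; omega)
  · rw [← iSup_wtp hF]
    apply le_antisymm
    · exact iSup_le fun c => le_iSup (wtp R.F q) (w + c)
    · refine iSup_le fun c => ?_
      have := le_iSup (fun c => wtp R.F q (w + c)) (c - w)
      simpa using this
  · exact (indep_wtp hq hF).comp (f := fun c : ℤ => w + c) (fun a b h => by
      have h' : w + a = w + b := h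
      omega)
  · have := N_wtp (by omega : 0 < q) hR.N_F hx
    rwa [show w + c - 2 = w + (c - 2) by ring] at this

end FN

end Pool.Agent.K7.H9.ND
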